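import Pool.Agent.H32.PQ.Dens

/-!
# The primes at which one of the values has no large prime factor: the asymptotic bound
-/

set_option autoImplicit false

namespace Pool.Agent.H32.PQ

open Finset Polynomial Filter Topology
open Pool.Agent.H373R2.T7 Pool.Agent.H474R2.PG Pool.Agent.W123.RP Pool.Agent.H32.LP
open Pool.Agent.Y879.GL Pool.Agent.TH464.PO

/-- **Few primes are bad.** -/
theorem bad_asym (c : ℕ) (hc : 1 ≤ c) (d : ℕ) (f0 : ℤ[X]) (hirr : Irreducible f0)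
    (hdeg : 0 < f0.natDegree) (e : ℕ) (η : ℝ) (hη : 0 < η) :
    ∃ δ : ℝ, 0 < δ ∧ δ ≤ 1 / 8 ∧ ∀ θ : ℝ, 0 < θ → ∃ r0 : ℕ, 4 ≤ r0 ∧ ∀ r : ℕ, r0 ≤ r →
      ∀ᶠ n : ℕ in atTop, ∀ M : ℕ, (n : ℝ) ^ θ ≤ M → M ≤ n → ∀ (Q : ℕ → ℕ → Prop) (g : ℤ[X]), PerB Q c →
      (∀ p n : ℕ, p.Prime → p ∣ n → Q p n) → (∀ p : ℕ, p.Prime → nuB Q p < p) →
      (∀ p n : ℕ, (p : ℤ) ∣ g.eval (n : ℤ) → Q p n) →
      (∀ p : ℕ, p.Prime → yl r n < p → rho g p ≤ rho f0 p ∧ rho g p ≤ d ∧ rho g p ≤ c) →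
      (∀ p : ℕ, p.Prime → yl r n < p → ∀ m : ℤ, (p : ℤ) ∣ g.eval m → ¬ (p : ℤ) ∣ g.derivative.eval m) →
      (∀ q : ℕ, M < q → q ≤ 2 * M → 0 < g.eval (q : ℤ)) →
      (∀ q : ℕ, M < q → q ≤ 2 * M → e * Real.log M ≤ Real.log ((g.eval (q : ℤ)).natAbs : ℝ)) →
      ((BP Q g (yl r n) M ⌊(M : ℝ) ^ (1 / 2 + δ)⌋₊).card : ℝ) * (e * Real.log M) ≤
        (1 / 2 + η) * (M * (Vq Q (yl r n) / Vz (yl r n))) := by
  classical
  obtain ⟨K', x', hK', hF'⟩ := fund_of c hc (1 / 3) (by norm_num)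
  obtain ⟨C1, hC1, hVz⟩ := Vz_up (4 * K') (by omega)
  obtain ⟨C2, hC2, hth⟩ := theta_le f0 hirr hdeg 1 one_pos
  obtain ⟨δ, hδ⟩ : ∃ δ, δ = min (1 / 8) (η / (128 * C1)) := ⟨_, rfl⟩
  have hδ0 : 0 < δ := by rw [hδ]; positivity
  have hδ8 : δ ≤ 1 / 8 := by rw [hδ]; exact min_le_left _ _
  have hδη : 16 * C1 * δ ≤ η / 8 := by
    have h1 : δ ≤ η / (128 * C1) := by rw [hδ]; exact min_le_right _ _
    rw [le_div_iff₀ (by positivity)] at h1
    linarith
  obtain ⟨ε, hε⟩ : ∃ ε, ε = min 1 (η / 64) := ⟨_, rfl⟩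
  have hε0 : 0 < ε := by rw [hε]; positivity
  have hε1 : ε ≤ 1 := by rw [hε]; exact min_le_left _ _
  have hε2 : ε ≤ η / 64 := by rw [hε]; exact min_le_right _ _
  obtain ⟨C4, hC4, hsu⟩ := sum_le f0 hirr hdeg ε hε0
  obtain ⟨K, z0, hK, hfund⟩ := fund c hc ε hε0 (1 / 2 - δ) (by linarith) (by linarith)
  obtain ⟨x0, hx0⟩ := hfund (c + 1)
  obtain ⟨v, hv, hV⟩ := V_lower_unif c
  obtain ⟨C3, hC3⟩ : ∃ C3, C3 = 2 * Real.log 2 + 2 + 2 * C2 := ⟨_, rfl⟩
  have hlog2 : 0 < Real.log 2 := Real.log_pos (by norm_num)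
  have hC30 : 0 ≤ C3 := by rw [hC3]; positivity
  refine ⟨δ, hδ0, hδ8, fun θ hθ => ?_⟩
  obtain ⟨R1, hR1⟩ := exists_nat_ge (((K : ℝ) + 4 * K') / θ)
  refine ⟨max R1 4, le_max_right _ _, fun r hr => ?_⟩
  have hr4 : 4 ≤ r := (le_max_right _ _).trans hr
  have hrr4 : (4 : ℝ) ≤ r := by exact_mod_cast hr4
  have hrr : (0 : ℝ) < r := by linarith
  have hrK : (K : ℝ) + 4 * K' ≤ θ * r := by
    have h1 : (R1 : ℝ) ≤ r := by exact_mod_cast (le_max_left _ _).trans hr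
    have h2 := hR1.trans h1
    rw [div_le_iff₀ hθ] at h2
    linarith
  obtain ⟨v', hv'⟩ : ∃ v', v' = v * θ ^ c := ⟨_, rfl⟩
  have hv'0 : 0 < v' := by rw [hv']; positivity
  have hK'r : (1 : ℝ) ≤ K' := by exact_mod_cast hK'
  -- conditions on `M`
  have hlogt : Tendsto (fun M : ℕ => Real.log (M : ℝ)) atTop atTop :=
    Real.tendsto_log_atTop.comp (tendsto_natCast_atTop_atTop (R := ℝ))
  have hS1 := Pool.Agent.TH464.PW.logpow_rpow c (48 * (2 + C2) / (η * v')) (1 / 4) (by positivity) (by norm_num)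
  have hS2 := Pool.Agent.TH464.PW.logpow_rpow (c + 1) ((24 * (d * e) + 1) / (η * v')) (1 / (r : ℝ)) (by positivity)
    (by positivity)
  have hMev := (((hVz.and hS1).and (hS2.and (hlogt.eventually_ge_atTop 4))).and
    (((hlogt.eventually_ge_atTop (C4 / ε)).and (hlogt.eventually_ge_atTop (24 / (η * v')))).and
    ((hlogt.eventually_ge_atTop (32 * C1 * C3 / η)).and
      ((yl_tendsto (4 * K') (by omega)).eventually_ge_atTop (x' + 2)))))
  obtain ⟨M0, hM0⟩ := eventually_atTop.1 hMev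
  have hnθ : Tendsto (fun n : ℕ => (n : ℝ) ^ θ) atTop atTop :=
    (tendsto_rpow_atTop hθ).comp (tendsto_natCast_atTop_atTop (R := ℝ))
  obtain ⟨Y1, hY1⟩ := exists_nat_ge (1 / ε)
  filter_upwards [hnθ.eventually_ge_atTop ((M0 : ℝ) + 2),
    (yl_tendsto r (by omega)).eventually_ge_atTop (x0 + z0 + Y1 + 2), eventually_ge_atTop 1] with n hn1 hn2 hn3
  intro M hnM hMn Q g hQ hbase hadm hgQ hρ hsep hpos hL
  obtain ⟨y, hy⟩ : ∃ y, y = yl r n := ⟨_, rfl⟩
  rw [← hy] at hn2 hρ hsep ⊢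
  have hMM0 : M0 ≤ M := by
    have : (M0 : ℝ) ≤ M := by linarith
    exact_mod_cast this
  have hM2 : 2 ≤ M := by
    have h0 : (0 : ℝ) ≤ M0 := Nat.cast_nonneg _
    have : (2 : ℝ) ≤ M := by linarith
    exact_mod_cast this
  obtain ⟨⟨⟨a1, a2⟩, a3, a4⟩, ⟨a5, a6⟩, a7, a8⟩ := hM0 M hMM0
  have hMr : (2 : ℝ) ≤ M := by exact_mod_cast hM2
  have hMp : (0 : ℝ) < M := by linarith
  have hM1 : (1 : ℝ) ≤ M := by linarith
  have hnp : (0 : ℝ) < n := by exact_mod_cast hn3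
  have hn1' : (1 : ℝ) ≤ n := by exact_mod_cast hn3
  obtain ⟨T, hT⟩ : ∃ T, T = Real.log M := ⟨_, rfl⟩
  rw [← hT] at a1 a2 a3 a4 a5 a6 a7 hL ⊢
  have hT0 : 0 < T := by linarith
  have hT1 : 1 ≤ T := by linarith
  have hy1 : 1 ≤ y := by omega
  have hy0 : (0 : ℝ) < y := by exact_mod_cast (by omega : 0 < y)
  have hyle : (y : ℝ) ≤ (n : ℝ) ^ (1 / (r : ℝ)) := by rw [hy]; exact yl_le r n
  -- the levels
  obtain ⟨y', hy'⟩ : ∃ y', y' = yl (4 * K') M := ⟨_, rfl⟩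
  have hVz' : Vz y' ≤ C1 / T := by
    rw [hy']
    unfold yl
    exact a1.2
  rw [← hy'] at a8
  obtain ⟨z1, hz1⟩ : ∃ z1, z1 = ⌊(M : ℝ) ^ (1 / 2 - δ)⌋₊ := ⟨_, rfl⟩
  obtain ⟨z2, hz2⟩ : ∃ z2, z2 = ⌊(M : ℝ) ^ (1 / 2 + δ)⌋₊ := ⟨_, rfl⟩
  rw [← hz2]
  have hnM2 : ∀ t : ℝ, 0 ≤ t → t ≤ 1 → (n : ℝ) ^ (θ * t) ≤ (M : ℝ) ^ t := by
    intro t ht _
    rw [Real.rpow_mul hnp.le]
    exact Real.rpow_le_rpow (by positivity) hnM ht
  have hrle : 1 / (r : ℝ) ≤ θ * (1 / (4 * K')) := by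
    rw [mul_one_div, div_le_div_iff₀ hrr (by positivity)]
    have : (0 : ℝ) ≤ K := Nat.cast_nonneg _
    linarith
  have hyMr : (y : ℝ) ≤ (M : ℝ) ^ (1 / (4 * (K' : ℝ))) := by
    refine hyle.trans ((Real.rpow_le_rpow_of_exponent_le hn1' hrle).trans ?_)
    apply hnM2 _ (by positivity)
    rw [div_le_one (by positivity)]
    linarith
  have hyy' : y ≤ y' := by
    rw [hy']
    unfold yl
    apply Nat.le_floor
    push_cast
    exact hyMr
  have hy'z1 : y' ≤ z1 := by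
    rw [hy', hz1]
    unfold yl
    apply Nat.floor_le_floor
    apply Real.rpow_le_rpow_of_exponent_le hM1
    push_cast
    have : 1 / (4 * (K' : ℝ)) ≤ 1 / 4 := by
      apply one_div_le_one_div_of_le (by norm_num)
      linarith
    linarith
  have hz12 : z1 ≤ z2 := by
    rw [hz1, hz2]
    apply Nat.floor_le_floor
    apply Real.rpow_le_rpow_of_exponent_le hM1
    linarith
  have hz1r : (z1 : ℝ) ≤ (M : ℝ) ^ (1 / 2 - δ) := by rw [hz1]; exact Nat.floor_le (by positivity)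
  have hz2r : (z2 : ℝ) ≤ (M : ℝ) ^ (1 / 2 + δ) := by rw [hz2]; exact Nat.floor_le (by positivity)
  have hz2r34 : (z2 : ℝ) ≤ (M : ℝ) ^ (3 / 4 : ℝ) :=
    hz2r.trans (Real.rpow_le_rpow_of_exponent_le hM1 (by linarith))
  have hz2M : z2 ≤ M := by
    have : (z2 : ℝ) ≤ M := by
      refine hz2r34.trans ?_
      calc (M : ℝ) ^ (3 / 4 : ℝ) ≤ (M : ℝ) ^ (1 : ℝ) :=
            Real.rpow_le_rpow_of_exponent_le hM1 (by norm_num)
        _ = M := Real.rpow_one _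
    exact_mod_cast this
  have hyK : y ^ K ≤ M := by
    have h1 : ((y ^ K : ℕ) : ℝ) ≤ M := by
      push_cast
      calc (y : ℝ) ^ K ≤ ((n : ℝ) ^ (1 / (r : ℝ))) ^ K := pow_le_pow_left₀ hy0.le hyle K
        _ = (n : ℝ) ^ (1 / (r : ℝ) * K) := by rw [← Real.rpow_natCast, ← Real.rpow_mul hnp.le]
        _ ≤ (n : ℝ) ^ θ := by
            apply Real.rpow_le_rpow_of_exponent_le hn1'
            rw [one_div, inv_mul_le_iff₀ hrr]
            linarith
        _ ≤ M := hnM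
    exact_mod_cast h1
  have hz0y : z0 ≤ y := by omega
  -- densities
  obtain ⟨W, hW⟩ : ∃ W, W = Vq Q y / Vz y := ⟨_, rfl⟩
  rw [← hW]
  have hVz0 := Pool.Agent.Y879.PR.Vz_pos y
  have hVz1 := Pool.Agent.Y879.PR.Vz_le_one y
  have hVq0 : 0 ≤ Vq Q y := Pool.Agent.H32.LP.Vq_nonneg Q y
  have hlogn : θ * Real.log n ≤ T := by
    rw [hT, ← Real.log_rpow hnp]
    exact Real.log_le_log (by positivity) hnM
  have hlogy : Real.log y ≤ T / θ := by
    rw [le_div_iff₀ hθ]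
    have h1 : Real.log y ≤ Real.log n := by
      apply Real.log_le_log hy0
      refine hyle.trans ?_
      calc (n : ℝ) ^ (1 / (r : ℝ)) ≤ (n : ℝ) ^ (1 : ℝ) := by
            apply Real.rpow_le_rpow_of_exponent_le hn1'
            rw [div_le_one hrr]
            linarith
        _ = n := Real.rpow_one _
    have h2 := mul_le_mul_of_nonneg_left h1 hθ.le
    linarith
  have hlogy0 : 0 < Real.log y := Real.log_pos (by exact_mod_cast (by omega : 1 < y))
  have hWlow : v' / T ^ c ≤ W := by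
    have h1 := hV Q hQ hadm y (by omega)
    have h2 : v' / T ^ c ≤ v / Real.log y ^ c := by
      rw [hv', div_le_div_iff₀ (by positivity) (by positivity), mul_assoc, ← mul_pow]
      apply mul_le_mul_of_nonneg_left _ hv.le
      apply pow_le_pow_left₀ (by positivity)
      have := mul_le_mul_of_nonneg_left hlogy hθ.le
      rwa [mul_div_cancel₀ _ hθ.ne'] at this
    refine h2.trans (h1.trans ?_)
    rw [hW, le_div_iff₀ hVz0]
    exact mul_le_of_le_one_right hVq0 hVz1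
  have hW0 : 0 < W := lt_of_lt_of_le (by positivity) hWlow
  have hMW : 0 < (M : ℝ) * W * T := by positivity
  -- the first part
  have hperA : PerA (Qe Q y g) c := perA_Qe Q c y g hQ (fun p hp hpy => (hρ p hp hpy).2.2)
  have hP := P_eq Q hbase y g
  rw [← hW] at hP
  obtain ⟨Gs, hGs⟩ : ∃ Gs, Gs = GG (Qe Q y g) y z1 := ⟨_, rfl⟩
  have hGs0 : 0 ≤ Gs := by rw [hGs]; exact GG_nonneg _ _ _
  have f2 := hx0 (2 * M) y z1 (by omega) (hyK.trans (by omega)) (hyy'.trans hy'z1)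
    (hz1r.trans (Real.rpow_le_rpow hMp.le (by push_cast; linarith) (by linarith))) (Qe Q y g) hperA
  have f1 := hx0 M y z1 (by omega) hyK (hyy'.trans hy'z1) hz1r (Qe Q y g) hperA
  rw [hP, ← hGs] at f1 f2
  rw [← hT] at f1
  push_cast at f2
  have hlog2M : Real.log (2 * (M : ℝ)) = Real.log 2 + T := by
    rw [Real.log_mul (by norm_num) hMp.ne', hT]
  have hl2 : Real.log 2 ≤ 1 := by
    have := Real.log_two_lt_d9
    linarith
  have hlog2M' : Real.log (2 * (M : ℝ)) ≤ 2 * T := by rw [hlog2M]; linarith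
  have hE := diff_le _ _ M (Gs * W) ε T (Real.log (2 * (M : ℝ))) (c + 1) hMp hT0 (by rw [hlog2M]; linarith) f2 f1
  have hz1one : 1 ≤ z1 := hy1.trans (hyy'.trans hy'z1)
  have hlogz1 : Real.log z1 ≤ T / 2 := by
    have h1 := Real.log_le_log (show (0 : ℝ) < z1 by exact_mod_cast hz1one) hz1r
    rw [Real.log_rpow hMp, ← hT] at h1
    have h2 := mul_nonneg hδ0.le hT0.le
    linarith
  have hGsle : Gs ≤ (1 + ε) * ((1 + ε) * (T / 2) + ε * T) := by
    have h1 := GG_up Q y z1 g (fun p => (rho f0 p : ℝ)) hy1 (fun p hp hpy => by exact_mod_cast (hρ p hp hpy).1)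
      (fun p => Nat.cast_nonneg _) _ (hsu z1 hz1one)
    rw [← hGs] at h1
    have h2 : 1 / (y : ℝ) ≤ ε := by
      rw [div_le_iff₀ hy0]
      rw [div_le_iff₀ hε0] at hY1
      have h3 : (Y1 : ℝ) ≤ y := by exact_mod_cast (by omega : Y1 ≤ y)
      have h4 := mul_le_mul_of_nonneg_right h3 hε0.le
      linarith
    have h4 : C4 ≤ ε * T := by
      rw [div_le_iff₀ hε0] at a5
      linarith
    have h5 : (1 + ε) * Real.log z1 + C4 ≤ (1 + ε) * (T / 2) + ε * T := by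
      have := mul_le_mul_of_nonneg_left hlogz1 (show 0 ≤ 1 + ε by linarith)
      linarith
    have h6 : 0 ≤ (1 + ε) * (T / 2) + ε * T := by positivity
    calc Gs ≤ (1 + 1 / (y : ℝ)) * ((1 + ε) * Real.log z1 + C4) := h1
      _ ≤ (1 + 1 / (y : ℝ)) * ((1 + ε) * (T / 2) + ε * T) := mul_le_mul_of_nonneg_left h5 (by positivity)
      _ ≤ (1 + ε) * ((1 + ε) * (T / 2) + ε * T) := mul_le_mul_of_nonneg_right (by linarith) h6
  have t1 : (1 + 3 * ε) * (M * (Gs * W)) ≤ (1 / 2 + η / 4) * (M * W * T) := by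
    have h1 : (1 + 3 * ε) * Gs ≤ (1 / 2 + η / 4) * T := by
      calc (1 + 3 * ε) * Gs ≤ (1 + 3 * ε) * ((1 + ε) * ((1 + ε) * (T / 2) + ε * T)) :=
            mul_le_mul_of_nonneg_left hGsle (by linarith)
        _ = ((1 + 3 * ε) * (1 + ε) * (1 / 2 + 3 / 2 * ε)) * T := by ring
        _ ≤ (1 / 2 + η / 4) * T := by
            apply mul_le_mul_of_nonneg_right _ hT0.le
            have h0 : ε * ε ≤ ε * 1 := mul_le_mul_of_nonneg_left hε1 hε0.le
            have h2 : (1 + 3 * ε) * (1 + ε) ≤ 1 + 7 * ε := by linarith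
            have h3 : (1 + 7 * ε) * (1 / 2 + 3 / 2 * ε) ≤ 1 / 2 + 16 * ε := by linarith
            have h4 := mul_le_mul_of_nonneg_right h2 (show 0 ≤ 1 / 2 + 3 / 2 * ε by linarith)
            linarith
    calc (1 + 3 * ε) * (M * (Gs * W)) = (1 + 3 * ε) * Gs * (M * W) := by ring
      _ ≤ (1 / 2 + η / 4) * T * (M * W) := mul_le_mul_of_nonneg_right h1 (by positivity)
      _ = _ := by ring
  have hTc : 0 < T ^ c := by positivity
  have t2 : 3 * (M / T ^ (c + 1)) ≤ η / 8 * (M * W * T) := by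
    have h1 : 24 ≤ η * v' * T := by
      rw [div_le_iff₀ (by positivity)] at a6
      linarith
    have h2 : 3 / T ^ (c + 1) ≤ η / 8 * (v' / T ^ c * T) := by
      rw [pow_succ, div_le_iff₀ (by positivity)]
      have : η / 8 * (v' / T ^ c * T) * (T ^ c * T) = η * v' * T * T / 8 := by
        field_simp
      rw [this]
      have h4 : 24 * 1 ≤ η * v' * T * T := mul_le_mul h1 hT1 zero_le_one (by linarith)
      linarith
    have h3 : η / 8 * (v' / T ^ c * T) ≤ η / 8 * (W * T) := by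
      apply mul_le_mul_of_nonneg_left _ (by positivity)
      exact mul_le_mul_of_nonneg_right hWlow hT0.le
    calc 3 * (M / T ^ (c + 1)) = M * (3 / T ^ (c + 1)) := by ring
      _ ≤ M * (η / 8 * (W * T)) := mul_le_mul_of_nonneg_left (h2.trans h3) hMp.le
      _ = _ := by ring
  -- the second part
  have hGint : ∑ l ∈ Lp z1 z2, (rho g l : ℝ) * Real.log l / l ≤ 4 * δ * T + C3 := by
    have h1 : ∑ l ∈ Lp z1 z2, (rho g l : ℝ) * Real.log l / l ≤
        ∑ l ∈ Lp z1 z2, (rho f0 l : ℝ) * Real.log l / l := by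
      apply sum_le_sum
      intro l hl
      obtain ⟨⟨_, h2⟩, h3⟩ := mem_Lp.1 hl
      have h4 : (rho g l : ℝ) ≤ rho f0 l := by
        exact_mod_cast (hρ l h2 (lt_of_le_of_lt (hyy'.trans hy'z1) h3)).1
      have := Real.log_natCast_nonneg l
      gcongr
    have h2 := abel2 (fun p => (rho f0 p : ℝ) * Real.log p) (fun p => by
      have := Real.log_natCast_nonneg p
      positivity) (1 + 1) C2 (by norm_num) hC2 hth z1 hz1one z2 hz12
    have h3 : Real.log z2 ≤ (1 / 2 + δ) * T := by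
      have h4 := Real.log_le_log (show (0 : ℝ) < z2 by exact_mod_cast (by omega : 0 < z2)) hz2r
      rwa [Real.log_rpow hMp, ← hT] at h4
    have h4 : (1 / 2 - δ) * T - Real.log 2 ≤ Real.log z1 := by
      have h5 : (M : ℝ) ^ (1 / 2 - δ) / 2 ≤ z1 := by
        have h6 := Nat.lt_floor_add_one ((M : ℝ) ^ (1 / 2 - δ))
        rw [← hz1] at h6
        have h7 : (1 : ℝ) ≤ z1 := by exact_mod_cast hz1one
        linarith
      have h6 := Real.log_le_log (by positivity) h5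
      rw [Real.log_div (by positivity) (by norm_num), Real.log_rpow hMp, ← hT] at h6
      exact h6
    rw [hC3]
    linarith
  have hHint : ∑ l ∈ Lp z1 z2, (rho g l : ℝ) * Real.log l ≤ (2 + C2) * (M : ℝ) ^ (1 / 2 + δ) := by
    have h1 : ∑ l ∈ Lp z1 z2, (rho g l : ℝ) * Real.log l ≤ ∑ l ∈ pz z2, (rho f0 l : ℝ) * Real.log l := by
      refine le_trans ?_ (sum_le_sum_of_subset_of_nonneg (filter_subset (fun p => z1 < p) (pz z2)) (fun p _ _ => by
        have := Real.log_natCast_nonneg p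
        positivity))
      apply sum_le_sum
      intro l hl
      obtain ⟨⟨_, h2⟩, h3⟩ := mem_Lp.1 hl
      have h4 : (rho g l : ℝ) ≤ rho f0 l := by
        exact_mod_cast (hρ l h2 (lt_of_le_of_lt (hyy'.trans hy'z1) h3)).1
      exact mul_le_mul_of_nonneg_right h4 (Real.log_natCast_nonneg l)
    have h2 := hth z2
    have h3 : (1 : ℝ) ≤ (M : ℝ) ^ (1 / 2 + δ) := Real.one_le_rpow hM1 (by linarith)
    have h4 := mul_le_mul_of_nonneg_left h3 hC2
    linarith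
  have hs := sqrt_le (4 * K') K' M (by omega) (by omega)
  have hs8 : √(((yl (4 * K') M) ^ K' : ℕ) : ℝ) ≤ (M : ℝ) ^ (1 / 8 : ℝ) := by
    refine hs.trans (le_of_eq ?_)
    congr 1
    push_cast
    field_simp
    norm_num
  rw [← hy'] at hs8
  obtain ⟨s, hs'⟩ : ∃ s, s = √((y' ^ K' : ℕ) : ℝ) := ⟨_, rfl⟩
  have hs0 : 0 ≤ s := by rw [hs']; exact Real.sqrt_nonneg _
  rw [← hs'] at hs8
  have hFy := hF' y' (by omega)
  rw [← hs'] at hFy
  have hbad := bad_fin c z0 y y' z1 z2 M (1 / 3) s (by norm_num) Q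
    (perB_Qu Q c y hQ hbase hc) hFy g hgQ hz0y hy1 hyy' hy'z1 hz12 hz2M d
    (fun p hp hpy => (hρ p hp hpy).2.1) hsep hpos (e * T) (by positivity) hL _ _ _ hE hGint hHint hs0
  rw [← hT, Vq_Qu Q hbase y y' hyy', ← hW] at hbad
  have t3 : Real.log (2 * (M : ℝ)) * ((1 + 3 * (1 / 3)) * (M * (W * Vz y')) * (4 * δ * T + C3)) ≤
      η / 4 * (M * W * T) := by
    have h0 : 0 ≤ 4 * δ * T + C3 := by positivity
    have h1 : Vz y' * T ≤ C1 := by
      rwa [le_div_iff₀ hT0] at hVz'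
    have h2 : 32 * C1 * C3 ≤ η * T := by
      rw [div_le_iff₀ hη] at a7
      linarith
    have h3 : Real.log (2 * (M : ℝ)) * ((1 + 3 * (1 / 3)) * (M * (W * Vz y')) * (4 * δ * T + C3)) ≤
        (2 * T) * ((1 + 3 * (1 / 3)) * (M * (W * Vz y')) * (4 * δ * T + C3)) := by
      apply mul_le_mul_of_nonneg_right hlog2M'
      have := (Pool.Agent.Y879.PR.Vz_pos y').le
      positivity
    refine h3.trans ?_
    have h4 : (2 * T) * ((1 + 3 * (1 / 3)) * (M * (W * Vz y')) * (4 * δ * T + C3)) =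
        4 * (M * W) * (4 * δ * T + C3) * (Vz y' * T) := by ring
    rw [h4]
    have h5 : 4 * (M * W) * (4 * δ * T + C3) * (Vz y' * T) ≤ 4 * (M * W) * (4 * δ * T + C3) * C1 :=
      mul_le_mul_of_nonneg_left h1 (by positivity)
    refine h5.trans ?_
    have h6 : (4 * δ * T + C3) * (4 * C1) ≤ η / 4 * T := by
      have h7 : 16 * C1 * δ * T ≤ η / 8 * T := mul_le_mul_of_nonneg_right hδη hT0.le
      have h8 : (4 * δ * T + C3) * (4 * C1) = 16 * C1 * δ * T + 4 * C1 * C3 := by ring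
      rw [h8]
      linarith
    calc 4 * (M * W) * (4 * δ * T + C3) * C1 = (4 * δ * T + C3) * (4 * C1) * (M * W) := by ring
      _ ≤ η / 4 * T * (M * W) := mul_le_mul_of_nonneg_right h6 (by positivity)
      _ = _ := by ring
  have t4 : Real.log (2 * (M : ℝ)) * ((1 + 2 * s) * ((2 + C2) * (M : ℝ) ^ (1 / 2 + δ))) ≤ η / 8 * (M * W * T) := by
    have h1 : 1 + 2 * s ≤ 3 * (M : ℝ) ^ (1 / 8 : ℝ) := by
      have : (1 : ℝ) ≤ (M : ℝ) ^ (1 / 8 : ℝ) := Real.one_le_rpow hM1 (by norm_num)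
      linarith
    have h2 : (M : ℝ) ^ (1 / 8 : ℝ) * (M : ℝ) ^ (1 / 2 + δ) ≤ (M : ℝ) ^ (1 - 1 / 4 : ℝ) := by
      rw [← Real.rpow_add hMp]
      apply Real.rpow_le_rpow_of_exponent_le hM1
      linarith
    have h3 : (M : ℝ) ^ (1 - 1 / 4 : ℝ) = M / (M : ℝ) ^ (1 / 4 : ℝ) := by
      rw [Real.rpow_sub hMp, Real.rpow_one]
    have hM4 : 0 < (M : ℝ) ^ (1 / 4 : ℝ) := by positivity
    have h4 : 6 * (2 + C2) * ((M : ℝ) ^ (1 - 1 / 4 : ℝ)) ≤ η / 8 * (M * W) := by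
      rw [h3]
      have h5 : 48 * (2 + C2) * T ^ c ≤ η * v' * (M : ℝ) ^ (1 / 4 : ℝ) := by
        rw [div_mul_eq_mul_div, div_le_iff₀ (by positivity)] at a2
        linarith
      have h6 : 6 * (2 + C2) / (M : ℝ) ^ (1 / 4 : ℝ) ≤ η / 8 * (v' / T ^ c) := by
        rw [div_le_iff₀ hM4]
        have h7 : η / 8 * (v' / T ^ c) * (M : ℝ) ^ (1 / 4 : ℝ) = (η * v' * (M : ℝ) ^ (1 / 4 : ℝ)) / (8 * T ^ c) := by
          field_simp
        rw [h7, le_div_iff₀ (by positivity)]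
        linarith
      have h7 : η / 8 * (v' / T ^ c) ≤ η / 8 * W := mul_le_mul_of_nonneg_left hWlow (by positivity)
      calc 6 * (2 + C2) * (M / (M : ℝ) ^ (1 / 4 : ℝ)) = M * (6 * (2 + C2) / (M : ℝ) ^ (1 / 4 : ℝ)) := by ring
        _ ≤ M * (η / 8 * W) := mul_le_mul_of_nonneg_left (h6.trans h7) hMp.le
        _ = _ := by ring
    have h5 : 0 ≤ (M : ℝ) ^ (1 / 2 + δ) := by positivity
    calc Real.log (2 * (M : ℝ)) * ((1 + 2 * s) * ((2 + C2) * (M : ℝ) ^ (1 / 2 + δ))) ≤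
          (2 * T) * ((3 * (M : ℝ) ^ (1 / 8 : ℝ)) * ((2 + C2) * (M : ℝ) ^ (1 / 2 + δ))) := by
          apply mul_le_mul hlog2M' _ (by positivity) (by positivity)
          exact mul_le_mul_of_nonneg_right h1 (by positivity)
      _ = T * (6 * (2 + C2) * ((M : ℝ) ^ (1 / 8 : ℝ) * (M : ℝ) ^ (1 / 2 + δ))) := by ring
      _ ≤ T * (6 * (2 + C2) * ((M : ℝ) ^ (1 - 1 / 4 : ℝ))) := by
          apply mul_le_mul_of_nonneg_left _ hT0.le
          exact mul_le_mul_of_nonneg_left h2 (by positivity)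
      _ ≤ T * (η / 8 * (M * W)) := mul_le_mul_of_nonneg_left h4 hT0.le
      _ = _ := by ring
  have t5 : (d * (M / y + z2)) * (T * (e * T)) ≤ η / 8 * (M * W * T) := by
    have hMr0 : 0 < (M : ℝ) ^ (1 / (r : ℝ)) := by positivity
    have h1 : (M : ℝ) / y ≤ 2 * (M / (M : ℝ) ^ (1 / (r : ℝ))) := by
      have h2 : (n : ℝ) ^ (1 / (r : ℝ)) ≤ 2 * y := by
        have := Nat.lt_floor_add_one ((n : ℝ) ^ (1 / (r : ℝ)))
        have h3 : (1 : ℝ) ≤ y := by exact_mod_cast hy1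
        rw [hy]
        rw [hy] at h3
        unfold yl at h3 ⊢
        linarith
      have h3 : (M : ℝ) ^ (1 / (r : ℝ)) ≤ (n : ℝ) ^ (1 / (r : ℝ)) :=
        Real.rpow_le_rpow hMp.le (by exact_mod_cast hMn) (by positivity)
      rw [← mul_div_assoc, div_le_div_iff₀ hy0 hMr0]
      have h4 := mul_le_mul_of_nonneg_left (h3.trans h2) hMp.le
      linarith
    have h2 : (z2 : ℝ) ≤ M / (M : ℝ) ^ (1 / (r : ℝ)) := by
      refine hz2r34.trans ?_
      have h3 : (M : ℝ) ^ (1 - 1 / (r : ℝ)) = M / (M : ℝ) ^ (1 / (r : ℝ)) := by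
        rw [Real.rpow_sub hMp, Real.rpow_one]
      rw [← h3]
      apply Real.rpow_le_rpow_of_exponent_le hM1
      have h4 : 1 / (r : ℝ) ≤ 1 / 4 := one_div_le_one_div_of_le (by norm_num) hrr4
      linarith
    have h3 : (24 * (d * e) + 1) * T ^ (c + 1) ≤ η * v' * (M : ℝ) ^ (1 / (r : ℝ)) := by
      rw [div_mul_eq_mul_div, div_le_iff₀ (by positivity)] at a3
      linarith
    have h4 : 3 * (d * e : ℝ) * T / (M : ℝ) ^ (1 / (r : ℝ)) ≤ η / 8 * (v' / T ^ c) := by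
      rw [div_le_iff₀ hMr0]
      have h7 : η / 8 * (v' / T ^ c) * (M : ℝ) ^ (1 / (r : ℝ)) = (η * v' * (M : ℝ) ^ (1 / (r : ℝ))) / (8 * T ^ c) := by
        field_simp
      rw [h7, le_div_iff₀ (by positivity)]
      have h8 : 3 * (d * e : ℝ) * T * (8 * T ^ c) = 24 * (d * e) * T ^ (c + 1) := by
        rw [pow_succ]; ring
      rw [h8]
      have h9 : 0 ≤ T ^ (c + 1) := by positivity
      linarith
    have h5 : η / 8 * (v' / T ^ c) ≤ η / 8 * W := mul_le_mul_of_nonneg_left hWlow (by positivity)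
    calc (d * (M / y + z2)) * (T * (e * T)) ≤ (d * (3 * (M / (M : ℝ) ^ (1 / (r : ℝ))))) * (T * (e * T)) := by
          apply mul_le_mul_of_nonneg_right _ (by positivity)
          apply mul_le_mul_of_nonneg_left _ (Nat.cast_nonneg _)
          linarith
      _ = M * T * (3 * (d * e : ℝ) * T / (M : ℝ) ^ (1 / (r : ℝ))) := by ring
      _ ≤ M * T * (η / 8 * W) := mul_le_mul_of_nonneg_left (h4.trans h5) (by positivity)
      _ = _ := by ring
  -- conclusion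
  have u1 : ((BP Q g y M z2).card : ℝ) * (T * (e * T)) ≤ (1 / 2 + η) * (M * W * T) := by
    rw [mul_add (Real.log (2 * (M : ℝ)))] at hbad
    have h0 : 0 ≤ η * (M * W * T) := by positivity
    have h1 : (1 / 2 + η) * (M * W * T) = (1 / 2 + η / 4) * (M * W * T) + η / 8 * (M * W * T) +
        η / 4 * (M * W * T) + η / 8 * (M * W * T) + η / 8 * (M * W * T) + 1 / 8 * (η * (M * W * T)) := by ring
    rw [h1]
    linarith
  have u2 : ((BP Q g y M z2).card : ℝ) * (e * T) * T ≤ (1 / 2 + η) * (M * W) * T := by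
    calc ((BP Q g y M z2).card : ℝ) * (e * T) * T = ((BP Q g y M z2).card : ℝ) * (T * (e * T)) := by ring
      _ ≤ (1 / 2 + η) * (M * W * T) := u1
      _ = _ := by ring
  exact le_of_mul_le_mul_right u2 hT0

end Pool.Agent.H32.PQ
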