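import Pool.Agent.H32.PQ.Fund
import Pool.Agent.H32.LP.Bad
import Pool.Graph.R_seed8.Y879.PR.VBase

/-!
# The primes at which one of the values has no large prime factor: the basic inequality
-/

set_option autoImplicit false

namespace Pool.Agent.H32.PQ

open Finset Polynomial Filter
open Pool.Agent.H373R2.T7 Pool.Agent.H474R2.PG Pool.Agent.W123.RP Pool.Agent.H32.LP
open Pool.Agent.W123.RU.Poly (per1)

/-- partial summation over an interval -/
theorem abel2 (a : ℕ → ℝ) (ha : ∀ n, 0 ≤ a n) (A C : ℝ) (hA : 0 ≤ A) (hC : 0 ≤ C)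
    (h : ∀ n : ℕ, ∑ p ∈ pz n, a p ≤ A * n + C) (z : ℕ) (hz : 1 ≤ z) (N : ℕ) (hN : z ≤ N) :
    ∑ p ∈ Lp z N, a p / p ≤ A * (Real.log N - Real.log z) + A + 2 * C := by
  have hLp : ∀ n : ℕ, z ≤ n → Lp z (n + 1) = if (n + 1).Prime then insert (n + 1) (Lp z n) else Lp z n := by
    intro n hn
    ext p
    split_ifs with hp
    · rw [mem_insert, mem_Lp, mem_Lp]
      constructor
      · rintro ⟨⟨h1, h2⟩, h3⟩
        by_cases h4 : p = n + 1
        · exact Or.inl h4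
        · exact Or.inr ⟨⟨by omega, h2⟩, h3⟩
      · rintro (h1 | ⟨⟨h1, h2⟩, h3⟩)
        · rw [h1]; exact ⟨⟨le_rfl, hp⟩, by omega⟩
        · exact ⟨⟨by omega, h2⟩, h3⟩
    · rw [mem_Lp, mem_Lp]
      constructor
      · rintro ⟨⟨h1, h2⟩, h3⟩
        refine ⟨⟨?_, h2⟩, h3⟩
        rcases Nat.lt_or_ge n p with h4 | h4
        · exact absurd (show (n + 1).Prime by have : p = n + 1 := by omega
                                              rwa [this] at h2) hp
        · exact h4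
      · rintro ⟨⟨h1, h2⟩, h3⟩
        exact ⟨⟨by omega, h2⟩, h3⟩
  have hnot : ∀ n : ℕ, n + 1 ∉ Lp z n := fun n hn => by
    have := (mem_Lp.1 hn).1.1
    omega
  have hT0 : ∀ n : ℕ, ∑ p ∈ Lp z n, a p ≤ A * n + C := fun n =>
    (sum_le_sum_of_subset_of_nonneg (filter_subset _ _) (fun p _ _ => ha p)).trans (h n)
  have hzr : (0 : ℝ) < z := by exact_mod_cast hz
  have key : ∀ N : ℕ, z ≤ N → ∑ p ∈ Lp z N, a p / p - (∑ p ∈ Lp z N, a p) / (N : ℝ) ≤
      A * (Real.log N - Real.log z) + C * (1 / (z : ℝ) - 1 / (N : ℝ)) := by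
    intro N hN
    induction N, hN using Nat.le_induction with
    | base =>
      have h1 : Lp z z = ∅ := by
        ext p
        rw [mem_Lp]
        constructor
        · rintro ⟨⟨h1, _⟩, h2⟩
          omega
        · intro h1
          exact absurd h1 (notMem_empty p)
      rw [h1]
      simp
    | succ N hN ih =>
      set S := ∑ p ∈ Lp z N, a p / p with hS
      set T := ∑ p ∈ Lp z N, a p with hT
      have hT' := hT0 N
      rw [← hT] at hT'
      have h1 : (0 : ℝ) < (N : ℝ) := by exact_mod_cast (by omega : 0 < N)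
      have h2 : ((N + 1 : ℕ) : ℝ) = (N : ℝ) + 1 := by push_cast; ring
      obtain ⟨x, hx⟩ : ∃ x : ℝ, x = (N : ℝ) := ⟨_, rfl⟩
      rw [← hx] at hT' h1 ih
      rw [h2, ← hx]
      have e1 : ∑ p ∈ Lp z (N + 1), a p / p - (∑ p ∈ Lp z (N + 1), a p) / (x + 1) =
          S - T / (x + 1) := by
        rw [hLp N hN]
        split_ifs with hp
        · rw [sum_insert (hnot _), sum_insert (hnot _), ← hS, ← hT, h2, ← hx]
          field_simp
          ring
        · rw [← hS, ← hT]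
      rw [e1]
      have hx1 : 0 < x + 1 := by linarith
      have e2 : S - T / (x + 1) = (S - T / x) + T / (x * (x + 1)) := by
        field_simp
        ring
      rw [e2]
      have e3 : T / (x * (x + 1)) ≤ (A * x + C) / (x * (x + 1)) := by
        gcongr
      have e4 : (A * x + C) / (x * (x + 1)) = A * (1 / (x + 1)) + C * (1 / x - 1 / (x + 1)) := by
        field_simp
        ring
      have e5 : 1 / (x + 1) ≤ Real.log (x + 1) - Real.log x := by
        rw [← Real.log_div hx1.ne' h1.ne']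
        have := Real.one_sub_inv_le_log_of_pos (x := (x + 1) / x) (by positivity)
        refine le_trans (le_of_eq ?_) this
        field_simp
        ring
      have e6 : A * (1 / (x + 1)) ≤ A * (Real.log (x + 1) - Real.log x) :=
        mul_le_mul_of_nonneg_left e5 hA
      rw [e4] at e3
      nlinarith
  have h1 := key N hN
  have h2 := hT0 N
  have h3 : (0 : ℝ) < (N : ℝ) := by exact_mod_cast (by omega : 0 < N)
  have h4 : (∑ p ∈ Lp z N, a p) / (N : ℝ) ≤ A + C / (N : ℝ) := by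
    rw [div_le_iff₀ h3, add_mul, div_mul_cancel₀ _ h3.ne']
    exact h2
  have h5 : C * (1 / (z : ℝ) - 1 / (N : ℝ)) = C * (1 / (z : ℝ)) - C / (N : ℝ) := by ring
  have h6 : 1 / (z : ℝ) ≤ 1 := by
    rw [div_le_one hzr]
    exact_mod_cast hz
  have h7 : C * (1 / (z : ℝ)) ≤ C * 1 := mul_le_mul_of_nonneg_left h6 hC
  linarith

/-- the conditions: `Q` for the small primes, divisibility of the values of `g` for the large primes -/
def Qe (Q : ℕ → ℕ → Prop) (y : ℕ) (g : ℤ[X]) (p n : ℕ) : Prop :=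
  (p ≤ y ∧ Q p n) ∨ (y < p ∧ (p : ℤ) ∣ g.eval (n : ℤ))

lemma Qe_small (Q : ℕ → ℕ → Prop) (y : ℕ) (g : ℤ[X]) (p n : ℕ) (h : p ≤ y) : Qe Q y g p n ↔ Q p n := by
  unfold Qe
  constructor
  · rintro (⟨_, h1⟩ | ⟨h1, _⟩)
    · exact h1
    · omega
  · intro h1
    exact Or.inl ⟨h, h1⟩

lemma Qe_large (Q : ℕ → ℕ → Prop) (y : ℕ) (g : ℤ[X]) (p n : ℕ) (h : y < p) :
    Qe Q y g p n ↔ (p : ℤ) ∣ g.eval (n : ℤ) := by
  unfold Qe
  constructor
  · rintro (⟨h1, _⟩ | ⟨_, h1⟩)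
    · omega
    · exact h1
  · intro h1
    exact Or.inr ⟨h, h1⟩

lemma rhoA_le_nuB (Q : ℕ → ℕ → Prop) (p : ℕ) : rhoA Q p ≤ nuB Q p := by
  classical
  have h1 : rhoA Q p = ((range p).filter (fun r => ¬ p ∣ r ∧ Q p r)).card := by
    unfold rhoA
    convert rfl
  have h2 : nuB Q p = ((range p).filter (fun r => Q p r)).card := by
    unfold nuB
    convert rfl
  rw [h1, h2]
  apply card_le_card
  intro r hr
  rw [mem_filter] at hr ⊢
  exact ⟨hr.1, hr.2.2⟩

lemma rhoA_Qe_large (Q : ℕ → ℕ → Prop) (y : ℕ) (g : ℤ[X]) (p : ℕ) (h : y < p) :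
    rhoA (Qe Q y g) p ≤ rho g p := by
  classical
  have h1 : rhoA (Qe Q y g) p = ((range p).filter (fun r => ¬ p ∣ r ∧ Qe Q y g p r)).card := by
    unfold rhoA
    convert rfl
  have h2 : rho g p = ((range p).filter (fun r : ℕ => (p : ℤ) ∣ g.eval (r : ℤ))).card := by
    unfold rho
    convert rfl
  rw [h1, h2]
  apply card_le_card
  intro r hr
  rw [mem_filter] at hr ⊢
  exact ⟨hr.1, (Qe_large Q y g p r h).1 hr.2.2⟩

lemma rhoA_Qe_small (Q : ℕ → ℕ → Prop) (y : ℕ) (g : ℤ[X]) (p : ℕ) (h : p ≤ y) :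
    rhoA (Qe Q y g) p = rhoA Q p := by
  classical
  unfold rhoA
  congr 1
  apply filter_congr
  intro r _
  rw [Qe_small Q y g p r h]

lemma perA_Qe (Q : ℕ → ℕ → Prop) (c y : ℕ) (g : ℤ[X]) (hQ : PerB Q c)
    (hρ : ∀ p : ℕ, p.Prime → y < p → rho g p ≤ c) : PerA (Qe Q y g) c := by
  refine ⟨fun p n => ?_, fun p hp => ?_⟩
  · unfold Qe
    rw [hQ.per p n, per1 g p n]
  · rcases Nat.lt_or_ge y p with h | h
    · exact (rhoA_Qe_large Q y g p h).trans (hρ p hp h)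
    · rw [rhoA_Qe_small Q y g p h]
      exact (rhoA_le_nuB Q p).trans (hQ.few p hp)

/-- the primes in the sifted set -/
noncomputable def SP (Q : ℕ → ℕ → Prop) (y M : ℕ) : Finset ℕ := by
  classical
  exact (Ioc M (2 * M)).filter (fun q => q.Prime ∧ ∀ p ∈ pz y, ¬ Q p q)

lemma mem_SP {Q : ℕ → ℕ → Prop} {y M q : ℕ} :
    q ∈ SP Q y M ↔ (M < q ∧ q ≤ 2 * M) ∧ q.Prime ∧ ∀ p ∈ pz y, ¬ Q p q := by
  classical
  unfold SP
  rw [mem_filter, mem_Ioc]

open Classical in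
/-- the contribution of the small prime divisors -/
theorem mass_small (Q : ℕ → ℕ → Prop) (g : ℤ[X]) (z0 y z M : ℕ) (hz0 : z0 ≤ y) (hyM : y ≤ M) (hzM : z ≤ M) :
    ∑ q ∈ SP Q y M, Real.log q * ∑ l ∈ (Lp y z).filter (fun l : ℕ => (l : ℤ) ∣ g.eval (q : ℤ)), Real.log (l : ℝ) ≤
      ∑ n ∈ Sf0 (Qe Q y g) z0 y (2 * M), wt (Qe Q y g) y z n - ∑ n ∈ Sf0 (Qe Q y g) z0 y M, wt (Qe Q y g) y z n := by
  have hsub : Sf0 (Qe Q y g) z0 y M ∪ SP Q y M ⊆ Sf0 (Qe Q y g) z0 y (2 * M) := by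
    intro n hn
    rw [mem_union] at hn
    rcases hn with hn | hn
    · unfold Sf0 at hn ⊢
      rw [mem_filter, mem_filter, mem_Icc] at hn ⊢
      exact ⟨⟨⟨hn.1.1.1, by omega⟩, hn.1.2⟩, hn.2⟩
    · obtain ⟨⟨h1, h2⟩, h3, h4⟩ := mem_SP.1 hn
      unfold Sf0
      rw [mem_filter, mem_filter, mem_Icc]
      refine ⟨⟨⟨h3.pos, h2⟩, fun p hp => ⟨?_, ?_⟩⟩, fun p hp h5 => ?_⟩
      · intro h5
        have h6 := (Nat.prime_dvd_prime_iff_eq (mem_pz.1 hp).2 h3).1 h5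
        have h7 := (mem_pz.1 hp).1
        omega
      · rw [Qe_small Q y g p n ((mem_pz.1 hp).1.trans hz0)]
        exact h4 p (mem_pz.2 ⟨(mem_pz.1 hp).1.trans hz0, (mem_pz.1 hp).2⟩)
      · have h6 := (mem_filter.1 hp).1
        rw [Qe_small Q y g p n (mem_pz.1 h6).1] at h5
        exact h4 p h6 h5.2
  have hdisj : Disjoint (Sf0 (Qe Q y g) z0 y M) (SP Q y M) := by
    rw [disjoint_left]
    intro n hn hn'
    unfold Sf0 at hn
    rw [mem_filter, mem_filter, mem_Icc] at hn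
    have h1 := (mem_SP.1 hn').1.1
    omega
  have h1 : ∑ n ∈ Sf0 (Qe Q y g) z0 y M, wt (Qe Q y g) y z n + ∑ n ∈ SP Q y M, wt (Qe Q y g) y z n ≤
      ∑ n ∈ Sf0 (Qe Q y g) z0 y (2 * M), wt (Qe Q y g) y z n := by
    rw [← sum_union hdisj]
    exact sum_le_sum_of_subset_of_nonneg hsub (fun n _ _ => wt_nonneg _ _ _ _)
  have h2 : ∑ q ∈ SP Q y M, Real.log q *
      ∑ l ∈ (Lp y z).filter (fun l : ℕ => (l : ℤ) ∣ g.eval (q : ℤ)), Real.log (l : ℝ) =
      ∑ n ∈ SP Q y M, wt (Qe Q y g) y z n := by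
    apply sum_congr rfl
    intro q hq
    obtain ⟨⟨h1, h2⟩, h3, h4⟩ := mem_SP.1 hq
    rw [wt, ArithmeticFunction.vonMangoldt_apply_prime h3]
    congr 1
    apply sum_congr _ (fun _ _ => rfl)
    apply filter_congr
    intro l hl
    obtain ⟨⟨hlz, hlp⟩, hly⟩ := mem_Lp.1 hl
    rw [Qe_large Q y g l q hly]
    constructor
    · intro h5
      refine ⟨fun h6 => ?_, h5⟩
      have h7 := (Nat.prime_dvd_prime_iff_eq hlp h3).1 h6
      omega
    · exact fun h5 => h5.2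
  rw [h2]
  linarith

/-- the conditions for the upper bound sieve -/
def Qu (Q : ℕ → ℕ → Prop) (y p n : ℕ) : Prop := (p ≤ y ∧ Q p n) ∨ p ∣ n

lemma perB_Qu (Q : ℕ → ℕ → Prop) (c y : ℕ) (hQ : PerB Q c) (hbase : ∀ p n, p.Prime → p ∣ n → Q p n)
    (hc : 1 ≤ c) : PerB (Qu Q y) c := by
  classical
  refine ⟨fun p n => ?_, fun p hp => ?_⟩
  · unfold Qu
    rw [← hQ.per p n, Nat.dvd_mod_iff (dvd_refl p)]
  · have h2 : nuB (Qu Q y) p = ((range p).filter (fun r => Qu Q y p r)).card := by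
      unfold nuB
      convert rfl
    rcases Nat.lt_or_ge y p with h | h
    · have h3 : (range p).filter (fun r => Qu Q y p r) ⊆ {0} := by
        intro r hr
        rw [mem_filter, mem_range] at hr
        rw [mem_singleton]
        rcases hr.2 with h4 | h4
        · omega
        · rcases Nat.eq_zero_or_pos r with h5 | h5
          · exact h5
          · exact absurd (Nat.le_of_dvd h5 h4) (by omega)
      have h4 := card_le_card h3
      rw [card_singleton] at h4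
      omega
    · have h3 : nuB Q p = ((range p).filter (fun r => Q p r)).card := by
        unfold nuB
        convert rfl
      have h4 := hQ.few p hp
      rw [h3] at h4
      rw [h2]
      refine le_trans (card_le_card ?_) h4
      intro r hr
      rw [mem_filter] at hr ⊢
      refine ⟨hr.1, ?_⟩
      rcases hr.2 with h5 | h5
      · exact h5.2
      · exact hbase p r hp h5

open Classical in
/-- upper bound for the number of the primes at which the value is divisible by `l` -/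
theorem count_l (c y y' : ℕ) (ε s : ℝ) (hε : 0 ≤ ε) (Q : ℕ → ℕ → Prop)
    (hQu : PerB (Qu Q y) c) (hF : Fund c y' ε s)
    (M : ℕ) (hy'M : y' ≤ M) (g : ℤ[X]) (l : ℕ) (hl : l.Prime) (hly : y' < l) (hlM : l ≤ M) :
    (((SP Q y M).filter (fun q : ℕ => (l : ℤ) ∣ g.eval (q : ℤ))).card : ℝ) ≤
      (rho g l : ℝ) * ((1 + 3 * ε) * (M * Vq (Qu Q y) y') / l + (1 + 2 * s)) := by
  have hcop : ∀ p ∈ pz y', ¬ p ∣ l := by
    intro p hp hpq
    have h1 := (Nat.prime_dvd_prime_iff_eq (mem_pz.1 hp).2 hl).1 hpq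
    have h3 := (mem_pz.1 hp).1
    omega
  set R := (range l).filter (fun b : ℕ => (l : ℤ) ∣ g.eval (b : ℤ)) with hR
  have hRcard : R.card = rho g l := by
    rw [hR]
    unfold rho
    convert rfl
  have hsub : (SP Q y M).filter (fun q : ℕ => (l : ℤ) ∣ g.eval (q : ℤ)) ⊆
      R.biUnion (fun a => {m ∈ Ioc M (2 * M) | m % l = a ∧ ∀ p ∈ pz y', ¬ Qu Q y p m}) := by
    intro m hm
    rw [mem_filter, mem_SP] at hm
    obtain ⟨⟨⟨hm1, hm2⟩, hm3, hm4⟩, hm5⟩ := hm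
    rw [mem_biUnion]
    refine ⟨m % l, ?_, ?_⟩
    · rw [hR, mem_filter, mem_range]
      exact ⟨Nat.mod_lt _ hl.pos, (per1 g l m).1 hm5⟩
    · rw [mem_filter, mem_Ioc]
      refine ⟨⟨hm1, hm2⟩, rfl, fun p hp h => ?_⟩
      rcases h with h | h
      · exact hm4 p (mem_pz.2 ⟨h.1, (mem_pz.1 hp).2⟩) h.2
      · have h1 := (Nat.prime_dvd_prime_iff_eq (mem_pz.1 hp).2 hm3).1 h
        have h3 := (mem_pz.1 hp).1
        omega
  have h1 := (card_le_card hsub).trans card_biUnion_le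
  have h2 : (((SP Q y M).filter (fun q : ℕ => (l : ℤ) ∣ g.eval (q : ℤ))).card : ℝ) ≤
      ∑ a ∈ R, (({m ∈ Ioc M (2 * M) | m % l = a ∧ ∀ p ∈ pz y', ¬ Qu Q y p m}.card : ℕ) : ℝ) := by
    exact_mod_cast h1
  refine h2.trans ?_
  have h3 : ∀ a ∈ R, (({m ∈ Ioc M (2 * M) | m % l = a ∧ ∀ p ∈ pz y', ¬ Qu Q y p m}.card : ℕ) : ℝ) ≤
      (1 + 3 * ε) * (M * Vq (Qu Q y) y') / l + (1 + 2 * s) := by
    intro a ha
    rw [hR, mem_filter, mem_range] at ha
    exact count_prog c y' ε s hε hF (Qu Q y) hQu M l a hl.pos ha.1 hlM hcop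
  refine (sum_le_sum h3).trans ?_
  rw [sum_const, nsmul_eq_mul, hRcard]

open Classical in
/-- the primes at which the value has no large prime factor -/
noncomputable def BP (Q : ℕ → ℕ → Prop) (g : ℤ[X]) (y M z : ℕ) : Finset ℕ :=
  (SP Q y M).filter (fun q : ℕ => ∀ p : ℕ, p.Prime → (p : ℤ) ∣ g.eval (q : ℤ) → p ≤ z)

open Classical in
/-- **The basic inequality.** -/
theorem bad_fin (c z0 y y' z1 z2 M : ℕ) (ε s : ℝ) (hε : 0 ≤ ε) (Q : ℕ → ℕ → Prop)
    (hQu : PerB (Qu Q y) c) (hF : Fund c y' ε s) (g : ℤ[X]) (hgQ : ∀ p n : ℕ, (p : ℤ) ∣ g.eval (n : ℤ) → Q p n)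
    (hz0 : z0 ≤ y) (hy1 : 1 ≤ y) (hyy' : y ≤ y') (hy'z : y' ≤ z1) (hz12 : z1 ≤ z2) (hz2 : z2 ≤ M)
    (d : ℕ) (hρ : ∀ p : ℕ, p.Prime → y < p → rho g p ≤ d)
    (hsep : ∀ p : ℕ, p.Prime → y < p → ∀ m : ℤ, (p : ℤ) ∣ g.eval m → ¬ (p : ℤ) ∣ g.derivative.eval m)
    (hpos : ∀ q : ℕ, M < q → q ≤ 2 * M → 0 < g.eval (q : ℤ)) (L : ℝ) (hL0 : 0 ≤ L)
    (hL : ∀ q : ℕ, M < q → q ≤ 2 * M → L ≤ Real.log ((g.eval (q : ℤ)).natAbs : ℝ))
    (E G H : ℝ) (hE : ∑ n ∈ Sf0 (Qe Q y g) z0 y (2 * M), wt (Qe Q y g) y z1 n -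
      ∑ n ∈ Sf0 (Qe Q y g) z0 y M, wt (Qe Q y g) y z1 n ≤ E)
    (hG : ∑ l ∈ Lp z1 z2, (rho g l : ℝ) * Real.log l / l ≤ G)
    (hH : ∑ l ∈ Lp z1 z2, (rho g l : ℝ) * Real.log l ≤ H) (hs : 0 ≤ s) :
    ((BP Q g y M z2).card : ℝ) * (Real.log M * L) ≤
      E + Real.log (2 * M) * ((1 + 3 * ε) * (M * Vq (Qu Q y) y') * G + (1 + 2 * s) * H) +
      (d * (M / y + z2)) * (Real.log M * L) := by
  have hM1 : 1 ≤ M := by omega
  have hMr : (1 : ℝ) ≤ M := by exact_mod_cast hM1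
  have hM0 : (0 : ℝ) < M := by linarith
  have hlM : 0 ≤ Real.log M := Real.log_nonneg hMr
  have hl2M : 0 ≤ Real.log (2 * M) := Real.log_nonneg (by linarith)
  have hy0 : (0 : ℝ) < y := by exact_mod_cast (by omega : 0 < y)
  have hV0 : 0 ≤ Vq (Qu Q y) y' := Vq_nonneg _ _
  set Sq : Finset ℕ := (Lp y z2).biUnion (fun p => (Ioc M (2 * M)).filter
    (fun m : ℕ => (p : ℤ) ^ 2 ∣ g.eval (m : ℤ))) with hSq
  have hlow : ∀ q ∈ BP Q g y M z2 \ Sq, Real.log M * L ≤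
      Real.log q * ∑ l ∈ (Lp y z1).filter (fun l : ℕ => (l : ℤ) ∣ g.eval (q : ℤ)), Real.log (l : ℝ) +
      Real.log (2 * M) * ∑ l ∈ (Lp z1 z2).filter (fun l : ℕ => (l : ℤ) ∣ g.eval (q : ℤ)), Real.log (l : ℝ) := by
    intro q hq
    rw [Finset.mem_sdiff, BP, mem_filter, mem_SP] at hq
    obtain ⟨⟨⟨⟨hq1, hq2⟩, hq3, hq4⟩, hq5⟩, hq6⟩ := hq
    set F : ℕ := (g.eval (q : ℤ)).natAbs with hF'
    have hpos' := hpos q hq1 hq2
    have hFe : ((F : ℕ) : ℤ) = g.eval (q : ℤ) := by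
      rw [hF', Int.natCast_natAbs, abs_of_pos hpos']
    have hF0 : F ≠ 0 := by
      intro h0
      rw [h0] at hFe
      rw [← hFe] at hpos'
      simp at hpos'
    have hdv : ∀ p : ℕ, p ∣ F ↔ (p : ℤ) ∣ g.eval (q : ℤ) := by
      intro p
      rw [← hFe]
      exact Int.natCast_dvd_natCast.symm
    have hpD : ∀ p : ℕ, p.Prime → p ∣ F → p ∈ Lp y z2 := by
      intro p hp hpF
      have h1 := (hdv p).1 hpF
      have h2 := hq5 p hp h1
      rw [mem_Lp]
      refine ⟨⟨h2, hp⟩, ?_⟩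
      by_contra h3
      exact hq4 p (mem_pz.2 ⟨by omega, hp⟩) (hgQ p q h1)
    have hsf : Squarefree F := by
      rw [Nat.squarefree_iff_prime_squarefree]
      intro p hp h1
      apply hq6
      have h2 : p ∣ F := (dvd_mul_right p p).trans h1
      rw [hSq, mem_biUnion]
      refine ⟨p, hpD p hp h2, ?_⟩
      rw [mem_filter, mem_Ioc]
      refine ⟨⟨hq1, hq2⟩, ?_⟩
      rw [← hFe, sq]
      exact_mod_cast h1
    have hlogF : Real.log F = ∑ p ∈ F.primeFactors, Real.log (p : ℝ) := by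
      conv_lhs => rw [← Nat.prod_primeFactors_of_squarefree hsf]
      rw [Nat.cast_prod, Real.log_prod]
      intro p hp
      exact_mod_cast (Nat.prime_of_mem_primeFactors hp).ne_zero
    have hsplit : ∑ p ∈ F.primeFactors, Real.log (p : ℝ) ≤
        ∑ l ∈ (Lp y z1).filter (fun l : ℕ => (l : ℤ) ∣ g.eval (q : ℤ)), Real.log (l : ℝ) +
        ∑ l ∈ (Lp z1 z2).filter (fun l : ℕ => (l : ℤ) ∣ g.eval (q : ℤ)), Real.log (l : ℝ) := by
      rw [← sum_union]
      · apply sum_le_sum_of_subset_of_nonneg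
        · intro p hp
          rw [Nat.mem_primeFactors] at hp
          have h1 := mem_Lp.1 (hpD p hp.1 hp.2.1)
          have h2 := (hdv p).1 hp.2.1
          rw [mem_union, mem_filter, mem_filter, mem_Lp, mem_Lp]
          rcases Nat.lt_or_ge z1 p with h | h
          · exact Or.inr ⟨⟨h1.1, h⟩, h2⟩
          · exact Or.inl ⟨⟨⟨h, hp.1⟩, h1.2⟩, h2⟩
        · intro p _ _
          exact Real.log_natCast_nonneg p
      · rw [disjoint_left]
        intro p hp hp'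
        rw [mem_filter, mem_Lp] at hp hp'
        omega
    have hLF := hL q hq1 hq2
    rw [← hF', hlogF] at hLF
    have hlq : Real.log M ≤ Real.log q := Real.log_le_log hM0 (by exact_mod_cast hq1.le)
    have hlq2 : Real.log M ≤ Real.log (2 * M) := Real.log_le_log hM0 (by linarith)
    have hn1 : 0 ≤ ∑ l ∈ (Lp y z1).filter (fun l : ℕ => (l : ℤ) ∣ g.eval (q : ℤ)), Real.log (l : ℝ) :=
      sum_nonneg fun l _ => Real.log_natCast_nonneg l
    have hn2 : 0 ≤ ∑ l ∈ (Lp z1 z2).filter (fun l : ℕ => (l : ℤ) ∣ g.eval (q : ℤ)), Real.log (l : ℝ) :=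
      sum_nonneg fun l _ => Real.log_natCast_nonneg l
    have k1 := mul_le_mul_of_nonneg_left (hLF.trans hsplit) hlM
    have k2 := mul_le_mul_of_nonneg_right hlq hn1
    have k3 := mul_le_mul_of_nonneg_right hlq2 hn2
    linarith
  -- the sum over the bad primes
  have h1 : ((BP Q g y M z2 \ Sq).card : ℝ) * (Real.log M * L) ≤
      ∑ q ∈ SP Q y M, (Real.log q * ∑ l ∈ (Lp y z1).filter (fun l : ℕ => (l : ℤ) ∣ g.eval (q : ℤ)), Real.log (l : ℝ) +
      Real.log (2 * M) * ∑ l ∈ (Lp z1 z2).filter (fun l : ℕ => (l : ℤ) ∣ g.eval (q : ℤ)), Real.log (l : ℝ)) := by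
    rw [← nsmul_eq_mul, ← sum_const]
    refine (sum_le_sum hlow).trans ?_
    apply sum_le_sum_of_subset_of_nonneg
    · intro m hm
      rw [Finset.mem_sdiff, BP, mem_filter] at hm
      exact hm.1.1
    · intro q _ _
      have hn1 : 0 ≤ ∑ l ∈ (Lp y z1).filter (fun l : ℕ => (l : ℤ) ∣ g.eval (q : ℤ)), Real.log (l : ℝ) :=
        sum_nonneg fun l _ => Real.log_natCast_nonneg l
      have hn2 : 0 ≤ ∑ l ∈ (Lp z1 z2).filter (fun l : ℕ => (l : ℤ) ∣ g.eval (q : ℤ)), Real.log (l : ℝ) :=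
        sum_nonneg fun l _ => Real.log_natCast_nonneg l
      have := Real.log_natCast_nonneg q
      positivity
  rw [sum_add_distrib, ← mul_sum] at h1
  have hA := mass_small Q g z0 y z1 M hz0 (by omega) (by omega)
  have hB : ∑ q ∈ SP Q y M, ∑ l ∈ (Lp z1 z2).filter (fun l : ℕ => (l : ℤ) ∣ g.eval (q : ℤ)), Real.log (l : ℝ) ≤
      (1 + 3 * ε) * (M * Vq (Qu Q y) y') * G + (1 + 2 * s) * H := by
    have e1 : ∑ q ∈ SP Q y M, ∑ l ∈ (Lp z1 z2).filter (fun l : ℕ => (l : ℤ) ∣ g.eval (q : ℤ)), Real.log (l : ℝ) =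
        ∑ l ∈ Lp z1 z2, Real.log l * (((SP Q y M).filter (fun q : ℕ => (l : ℤ) ∣ g.eval (q : ℤ))).card : ℝ) := by
      have e2 : ∀ q ∈ SP Q y M, ∑ l ∈ (Lp z1 z2).filter (fun l : ℕ => (l : ℤ) ∣ g.eval (q : ℤ)), Real.log (l : ℝ) =
          ∑ l ∈ Lp z1 z2, if (l : ℤ) ∣ g.eval (q : ℤ) then Real.log (l : ℝ) else 0 := fun q _ => by
        rw [sum_filter]
      rw [sum_congr rfl e2, sum_comm]
      apply sum_congr rfl
      intro l _
      rw [← sum_filter, sum_const, nsmul_eq_mul, mul_comm]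
    rw [e1]
    have e3 : ∀ l ∈ Lp z1 z2, Real.log l * (((SP Q y M).filter (fun q : ℕ => (l : ℤ) ∣ g.eval (q : ℤ))).card : ℝ) ≤
        (1 + 3 * ε) * (M * Vq (Qu Q y) y') * ((rho g l : ℝ) * Real.log l / l) +
        (1 + 2 * s) * ((rho g l : ℝ) * Real.log l) := by
      intro l hl
      obtain ⟨⟨hlz, hlp⟩, hly⟩ := mem_Lp.1 hl
      have h2 := count_l c y y' ε s hε Q hQu hF M (by omega) g l hlp (by omega) (by omega)
      refine (mul_le_mul_of_nonneg_left h2 (Real.log_natCast_nonneg l)).trans (le_of_eq ?_)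
      ring
    refine (sum_le_sum e3).trans ?_
    rw [sum_add_distrib, ← mul_sum, ← mul_sum]
    apply add_le_add
    · exact mul_le_mul_of_nonneg_left hG (by positivity)
    · exact mul_le_mul_of_nonneg_left hH (by positivity)
  have hSqc : (Sq.card : ℝ) ≤ d * (M / y + z2) := by
    have h2 : (Sq.card : ℝ) ≤ ∑ p ∈ Lp y z2, (((Ioc M (2 * M)).filter
        (fun m : ℕ => (p : ℤ) ^ 2 ∣ g.eval (m : ℤ))).card : ℝ) := by
      exact_mod_cast card_biUnion_le
    refine h2.trans ?_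
    have h3 : ∀ p ∈ Lp y z2, (((Ioc M (2 * M)).filter
        (fun m : ℕ => (p : ℤ) ^ 2 ∣ g.eval (m : ℤ))).card : ℝ) ≤ d * (M * ((p : ℝ) ^ 2)⁻¹ + 1) := by
      intro p hp
      obtain ⟨⟨g3, g1⟩, g2⟩ := mem_Lp.1 hp
      refine (count_sq g M p g1 (hsep p g1 g2)).trans ?_
      have h4 : (rho g p : ℝ) ≤ d := by exact_mod_cast hρ p g1 g2
      rw [div_eq_mul_inv]
      gcongr
    refine (sum_le_sum h3).trans ?_
    rw [← mul_sum, sum_add_distrib, ← mul_sum]
    apply mul_le_mul_of_nonneg_left _ (Nat.cast_nonneg d)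
    apply add_le_add
    · rw [div_eq_mul_inv]
      apply mul_le_mul_of_nonneg_left _ hM0.le
      have h5 : Lp y z2 ⊆ Ioc y (max y z2) := by
        intro p hp
        obtain ⟨⟨g3, _⟩, g2⟩ := mem_Lp.1 hp
        rw [mem_Ioc]
        exact ⟨g2, g3.trans (le_max_right _ _)⟩
      refine (sum_le_sum_of_subset_of_nonneg h5 (fun _ _ _ => by positivity)).trans ?_
      have h6 := sum_Ioc_inv_sq_le_sub (α := ℝ) (show y ≠ 0 by omega) (le_max_left y z2)
      have h7 : (0 : ℝ) ≤ ((max y z2 : ℕ) : ℝ)⁻¹ := by positivity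
      linarith
    · rw [sum_const, nsmul_eq_mul, mul_one]
      have h5 : Lp y z2 ⊆ Icc 1 z2 := by
        intro p hp
        obtain ⟨⟨g3, g1⟩, _⟩ := mem_Lp.1 hp
        exact mem_Icc.2 ⟨g1.pos, g3⟩
      have h6 := card_le_card h5
      rw [Nat.card_Icc, Nat.add_sub_cancel] at h6
      exact_mod_cast h6
  have h2 : ((BP Q g y M z2).card : ℝ) ≤ ((BP Q g y M z2 \ Sq).card : ℝ) + Sq.card := by
    have := card_le_card_sdiff_add_card (s := BP Q g y M z2) (t := Sq)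
    exact_mod_cast this
  have hML : 0 ≤ Real.log M * L := mul_nonneg hlM hL0
  have k3 := mul_le_mul_of_nonneg_right h2 hML
  have k4 := mul_le_mul_of_nonneg_right hSqc hML
  have k5 := mul_le_mul_of_nonneg_left hB hl2M
  rw [add_mul] at k3
  linarith

end Pool.Agent.H32.PQ
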