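import Pool.Graph.R_seed8.H373R2.T7.FundC

/-!
# The fundamental lemma over the primes with the weights `∑ log ℓ` over the large prime divisors `ℓ`
-/

set_option autoImplicit false

namespace Pool.Agent.H32.PQ

open Finset Pool.Agent.H373R2.T7

/-- the primes in `(y, z]` -/
noncomputable def Lp (y z : ℕ) : Finset ℕ := (pz z).filter (fun p => y < p)

lemma mem_Lp {y z p : ℕ} : p ∈ Lp y z ↔ (p ≤ z ∧ p.Prime) ∧ y < p := by
  rw [Lp, mem_filter, mem_pz]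

/-- the mean value of the weights -/
noncomputable def GG (Q : ℕ → ℕ → Prop) (y z : ℕ) : ℝ :=
  ∑ l ∈ Lp y z, Real.log l * ((rhoA Q l : ℝ) / (l - 1 : ℝ))

open Classical in
/-- the weights -/
noncomputable def wt (Q : ℕ → ℕ → Prop) (y z n : ℕ) : ℝ :=
  ArithmeticFunction.vonMangoldt n * ∑ l ∈ (Lp y z).filter (fun l => ¬ l ∣ n ∧ Q l n), Real.log (l : ℝ)

lemma wt_nonneg (Q : ℕ → ℕ → Prop) (y z n : ℕ) : 0 ≤ wt Q y z n :=
  mul_nonneg ArithmeticFunction.vonMangoldt_nonneg (sum_nonneg fun l _ => Real.log_natCast_nonneg l)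

lemma GG_nonneg (Q : ℕ → ℕ → Prop) (y z : ℕ) : 0 ≤ GG Q y z := by
  apply sum_nonneg
  intro l hl
  have h1 := (mem_Lp.1 hl).1.2.two_le
  have h2 : (2 : ℝ) ≤ l := by exact_mod_cast h1
  have h3 := Real.log_natCast_nonneg l
  have h4 : (0 : ℝ) ≤ (rhoA Q l : ℝ) / (l - 1 : ℝ) := div_nonneg (Nat.cast_nonneg _) (by linarith)
  positivity

open Classical in
/-- the sifted set -/
noncomputable def Sf0 (Q : ℕ → ℕ → Prop) (z0 y X : ℕ) : Finset ℕ :=
  ((Icc 1 X).filter (fun n => ∀ p ∈ pz z0, ¬ p ∣ n ∧ ¬ Q p n)).filter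
    (fun n => ∀ p ∈ (pz y).filter (fun p => z0 < p), ¬ (¬ p ∣ n ∧ Q p n))

/-- sums over pairs against sums over integers -/
lemma sum_pair_le (P T0 L : Finset ℕ) (hP : ∀ p ∈ P, p.Prime) (hL : ∀ p ∈ L, p.Prime)
    (hT0 : ∀ p ∈ T0, p.Prime) (hd : Disjoint T0 (P ∪ L)) (hPL : Disjoint P L) (D z : ℕ)
    (hLz : ∀ l ∈ L, l ≤ z) (f : ℕ → ℝ) (hf : ∀ d, 0 ≤ f d) :
    ∑ T ∈ P.powerset.filter (fun T : Finset ℕ => ∏ p ∈ T, p ≤ D),
      ∑ l ∈ L, f (∏ p ∈ T0 ∪ insert l T, p) ≤ ∑ d ∈ Icc 1 ((∏ p ∈ T0, p) * (D * z)), f d := by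
  classical
  rw [← sum_product']
  have hinj : Set.InjOn (fun x : Finset ℕ × ℕ => insert x.2 x.1)
      ((P.powerset.filter (fun T : Finset ℕ => ∏ p ∈ T, p ≤ D)) ×ˢ L : Finset (Finset ℕ × ℕ)) := by
    rintro ⟨T, l⟩ hT ⟨T', l'⟩ hT' h
    rw [mem_coe, mem_product, mem_filter, mem_powerset] at hT hT'
    simp only at h hT hT'
    have hlT : ∀ l ∈ L, ∀ T ⊆ P, l ∉ T := fun l hl T hT h1 => disjoint_left.1 hPL (hT h1) hl
    have h1 : l = l' := by
      have h2 : l ∈ insert l' T' := by rw [← h]; exact mem_insert_self _ _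
      rcases mem_insert.1 h2 with h3 | h3
      · exact h3
      · exact absurd h3 (hlT l hT.2 T' hT'.1.1)
    subst h1
    have h2 : (insert l T).erase l = (insert l T').erase l := by rw [h]
    rw [erase_insert (hlT l hT.2 T hT.1.1), erase_insert (hlT l hT.2 T' hT'.1.1)] at h2
    rw [h2]
  refine le_trans ?_ (sum_inj_le (P ∪ L) T0 (fun p hp => by
    rcases mem_union.1 hp with h | h
    · exact hP p h
    · exact hL p h) hT0 hd (D * z) f hf)
  rw [← sum_image (f := fun T' : Finset ℕ => f (∏ p ∈ T0 ∪ T', p)) hinj]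
  apply sum_le_sum_of_subset_of_nonneg
  · intro T' hT'
    rw [mem_image] at hT'
    obtain ⟨⟨T, l⟩, h1, rfl⟩ := hT'
    rw [mem_product, mem_filter, mem_powerset] at h1
    simp only at h1
    have hlT : l ∉ T := fun h2 => disjoint_left.1 hPL (h1.1.1 h2) h1.2
    rw [mem_filter, mem_powerset]
    refine ⟨?_, ?_⟩
    · intro p hp
      rcases mem_insert.1 hp with h2 | h2
      · rw [h2]; exact mem_union_right _ h1.2
      · exact mem_union_left _ (h1.1.1 h2)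
    · rw [prod_insert hlT, mul_comm]
      exact Nat.mul_le_mul h1.1.2 (hLz l h1.2)
  · intro _ _ _
    exact hf _

open Classical in
theorem core (c : ℕ) (hc : 1 ≤ c) : ∃ C0 k : ℕ, 1 ≤ C0 ∧ ∀ b : ℕ, C0 ≤ b → ∀ y z X r : ℕ,
    (C0 + c) + 3 ≤ y → y ≤ z →
    (∏ p ∈ pz (C0 + c), p) * ((2 ^ 2 ^ JJ y) ^ (C0 * b) * z) ≤ X → 1 ≤ Real.log X →
    ∀ Q : ℕ → ℕ → Prop, PerA Q c →
    |∑ n ∈ Sf0 Q (C0 + c) y X, wt Q y z n -
      lam1 X * GG Q y z * ∏ p ∈ pz y, (1 - (rhoA Q p : ℝ) / (p - 1 : ℝ))| ≤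
      (1 / 2 : ℝ) ^ b * (lam1 X * GG Q y z * ∏ p ∈ pz y, (1 - (rhoA Q p : ℝ) / (p - 1 : ℝ))) +
      ((JJ y : ℝ) + 2) * (Real.log z *
        (∑ d ∈ Icc 1 ((∏ p ∈ pz (C0 + c), p) * ((2 ^ 2 ^ JJ y) ^ (C0 * b) * z)), EfA (RQ Q (C0 + c)) X z r d +
        Real.exp (-(r : ℝ)) * (8 * X * Real.log X) *
          (1 + Real.log (((∏ p ∈ pz (C0 + c), p) * ((2 ^ 2 ^ JJ y) ^ (C0 * b) * z) : ℕ) : ℝ)) ^ (2 ^ k))) := by
  obtain ⟨C0, hC0, hFL⟩ := Pool.Agent.H20R2.fLem c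
  have hz1 : (1 : ℝ) ≤ 3 * ((C0 + c : ℕ) : ℝ) := by
    have : (1 : ℝ) ≤ ((C0 + c : ℕ) : ℝ) := by exact_mod_cast (by omega : 1 ≤ C0 + c)
    linarith
  obtain ⟨k, hk⟩ := Pool.Agent.H398R2.BV.sum_pow_omega_div_totient (3 * ((C0 + c : ℕ) : ℝ)) hz1
  refine ⟨C0, k, hC0, fun b hb y z X r hy hyz hX hL Q hQ => ?_⟩
  set z0 := C0 + c with hz0
  set J := JJ y with hJ
  set D : ℕ := (2 ^ 2 ^ J) ^ (C0 * b) with hD
  set K0 : ℕ := ∏ p ∈ pz z0, p with hK0
  set P : Finset ℕ := (pz y).filter (fun p => z0 < p) with hP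
  have hyY : y < 2 ^ 2 ^ J := JJ_lt y
  have hPp : ∀ p ∈ P, p.Prime ∧ z0 < p ∧ p ≤ 2 ^ 2 ^ J := by
    intro p hp
    rw [hP, mem_filter] at hp
    exact ⟨(mem_pz.1 hp.1).2, hp.2, ((mem_pz.1 hp.1).1.trans hyY.le)⟩
  have hPy : ∀ p ∈ P, p ≤ y := fun p hp => by
    rw [hP, mem_filter] at hp
    exact (mem_pz.1 hp.1).1
  have hpzy : pz y = pz z0 ∪ P := mid_split z0 y (by omega)
  have hdisj : Disjoint (pz z0) P := mid_disj z0 y
  have hpz0 : ∀ p ∈ pz z0, p.Prime := fun p hp => (mem_pz.1 hp).2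
  have hPL : Disjoint P (Lp y z) := by
    rw [disjoint_left]
    intro p hp hp'
    have h1 := hPy p hp
    have h2 := (mem_Lp.1 hp').2
    omega
  have hzL : Disjoint (pz z0) (Lp y z) := by
    rw [disjoint_left]
    intro p hp hp'
    have h1 := (mem_pz.1 hp).1
    have h2 := (mem_Lp.1 hp').2
    omega
  have hψ0 : 0 ≤ lam1 X := sum_nonneg fun _ _ => ArithmeticFunction.vonMangoldt_nonneg
  have hGG0 := GG_nonneg Q y z
  set A0 : ℝ := ∏ p ∈ pz z0, ((rhoA (RQ Q z0) p : ℝ) / (p - 1 : ℝ)) with hA0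
  have hA00 : 0 ≤ A0 := by
    apply prod_nonneg
    intro p hp
    have hp2 : (2 : ℝ) ≤ p := by exact_mod_cast (hpz0 p hp).two_le
    exact div_nonneg (Nat.cast_nonneg _) (by linarith)
  have key := hFL b J z0 P (fun p => (rhoA Q p : ℝ) / (p - 1 : ℝ)) hb (by omega) hPp (fun p hp => by
      have hp2 : (2 : ℝ) ≤ p := by exact_mod_cast (hPp p hp).1.two_le
      refine ⟨div_nonneg (Nat.cast_nonneg _) (by linarith), ?_⟩
      apply div_le_div_of_nonneg_right _ (by linarith)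
      exact_mod_cast hQ.few p (hPp p hp).1)
    ((Icc 1 X).filter (fun n => ∀ p ∈ pz z0, ¬ p ∣ n ∧ ¬ Q p n)) (fun n => wt Q y z n)
    (fun p n => ¬ p ∣ n ∧ Q p n) (lam1 X * A0 * GG Q y z)
    (fun T => ∑ l ∈ Lp y z, Real.log l * fE Q z0 X z r (∏ p ∈ pz z0 ∪ insert l T, p))
    (fun _ _ => wt_nonneg _ _ _ _) (by positivity) (by
      intro T hT hTD
      have hterm : ∀ l ∈ Lp y z,
          |∑ n ∈ (Icc 1 X).filter (fun n : ℕ => ∀ p ∈ pz z0 ∪ insert l T, ¬ p ∣ n ∧ RQ Q z0 p n),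
            ArithmeticFunction.vonMangoldt n -
            lam1 X * A0 * ((rhoA Q l : ℝ) / (l - 1 : ℝ)) * ∏ p ∈ T, ((rhoA Q p : ℝ) / (p - 1 : ℝ))| ≤
          fE Q z0 X z r (∏ p ∈ pz z0 ∪ insert l T, p) := by
        intro l hl
        obtain ⟨⟨hlz, hlp⟩, hly⟩ := mem_Lp.1 hl
        have hlT : l ∉ T := fun h2 => disjoint_left.1 hPL (hT h2) hl
        have hdT : Disjoint (pz z0) (insert l T) := by
          rw [disjoint_insert_right]
          exact ⟨fun h2 => disjoint_left.1 hzL h2 hl, disjoint_of_subset_right hT hdisj⟩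
        have hSy : pz z0 ∪ insert l T ⊆ pz z := by
          intro p hp
          rw [mem_pz]
          rcases mem_union.1 hp with h | h
          · have := mem_pz.1 h
            exact ⟨by omega, this.2⟩
          · rcases mem_insert.1 h with h | h
            · rw [h]; exact ⟨hlz, hlp⟩
            · exact ⟨(hPy p (hT h)).trans hyz, (hPp p (hT h)).1⟩
        have hdX : ∏ p ∈ pz z0 ∪ insert l T, p ≤ X := by
          rw [prod_union hdT, prod_insert hlT, mul_comm l]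
          exact le_trans (Nat.mul_le_mul_left _ (Nat.mul_le_mul hTD hlz)) hX
        have h1 := fE_bound Q hQ z0 (by omega) X z r (pz z0 ∪ insert l T) hSy hdX hL
        rw [prod_union hdT, prod_insert hlT] at h1
        have e2 : ∏ p ∈ T, ((rhoA (RQ Q z0) p : ℝ) / (p - 1 : ℝ)) = ∏ p ∈ T, ((rhoA Q p : ℝ) / (p - 1 : ℝ)) := by
          apply prod_congr rfl
          intro p hp
          rw [rhoA_large Q z0 p (by have := (hPp p (hT hp)).2.1; omega)]
        rw [e2, rhoA_large Q z0 l (by omega)] at h1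
        have e3 : lam1 X * A0 * ((rhoA Q l : ℝ) / (l - 1 : ℝ)) * ∏ p ∈ T, ((rhoA Q p : ℝ) / (p - 1 : ℝ)) =
            lam1 X * (A0 * ((rhoA Q l : ℝ) / (l - 1 : ℝ) * ∏ p ∈ T, ((rhoA Q p : ℝ) / (p - 1 : ℝ)))) := by ring
        rw [e3]
        exact h1
      have e5 : ∑ m ∈ ((Icc 1 X).filter (fun n => ∀ p ∈ pz z0, ¬ p ∣ n ∧ ¬ Q p n)).filter
          (fun m => ∀ p ∈ T, ¬ p ∣ m ∧ Q p m), wt Q y z m =
          ∑ l ∈ Lp y z, Real.log l * ∑ n ∈ (Icc 1 X).filter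
            (fun n : ℕ => ∀ p ∈ pz z0 ∪ insert l T, ¬ p ∣ n ∧ RQ Q z0 p n), ArithmeticFunction.vonMangoldt n := by
        have e6 : ∀ m ∈ ((Icc 1 X).filter (fun n => ∀ p ∈ pz z0, ¬ p ∣ n ∧ ¬ Q p n)).filter
            (fun m => ∀ p ∈ T, ¬ p ∣ m ∧ Q p m), wt Q y z m = ∑ l ∈ Lp y z,
              if (¬ l ∣ m ∧ Q l m) then Real.log l * ArithmeticFunction.vonMangoldt m else 0 := by
          intro m _
          rw [wt, mul_sum, sum_filter]
          apply sum_congr rfl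
          intro l _
          split_ifs
          · rw [mul_comm]
          · rfl
        rw [sum_congr rfl e6, sum_comm]
        apply sum_congr rfl
        intro l hl
        obtain ⟨⟨hlz, hlp⟩, hly⟩ := mem_Lp.1 hl
        rw [← sum_filter, mul_sum, filter_filter, filter_filter]
        apply sum_congr _ (fun _ _ => rfl)
        apply filter_congr
        intro n _
        constructor
        · rintro ⟨h5, h6, h7⟩ p hp
          rcases mem_union.1 hp with h | h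
          · exact ⟨(h5 p h).1, (RQ_small Q z0 p n (mem_pz.1 h).1).2 (h5 p h).2⟩
          · rcases mem_insert.1 h with h | h
            · rw [h]
              exact ⟨h7.1, (RQ_large Q z0 l n (by omega)).2 h7.2⟩
            · exact ⟨(h6 p h).1, (RQ_large Q z0 p n (by have := (hPp p (hT h)).2.1; omega)).2 (h6 p h).2⟩
        · intro h5
          refine ⟨fun p hp => ?_, fun p hp => ?_, ?_⟩
          · have h8 := h5 p (mem_union_left _ hp)
            exact ⟨h8.1, (RQ_small Q z0 p n (mem_pz.1 hp).1).1 h8.2⟩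
          · have h8 := h5 p (mem_union_right _ (mem_insert_of_mem hp))
            exact ⟨h8.1, (RQ_large Q z0 p n (by have := (hPp p (hT hp)).2.1; omega)).1 h8.2⟩
          · have h8 := h5 l (mem_union_right _ (mem_insert_self _ _))
            exact ⟨h8.1, (RQ_large Q z0 l n (by omega)).1 h8.2⟩
      have e7 : lam1 X * A0 * GG Q y z * ∏ p ∈ T, ((rhoA Q p : ℝ) / (p - 1 : ℝ)) =
          ∑ l ∈ Lp y z, Real.log l * (lam1 X * A0 * ((rhoA Q l : ℝ) / (l - 1 : ℝ)) *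
            ∏ p ∈ T, ((rhoA Q p : ℝ) / (p - 1 : ℝ))) := by
        rw [GG, mul_sum, sum_mul]
        apply sum_congr rfl
        intro l _
        ring
      have h9 : |∑ m ∈ ((Icc 1 X).filter (fun n => ∀ p ∈ pz z0, ¬ p ∣ n ∧ ¬ Q p n)).filter
          (fun m => ∀ p ∈ T, ¬ p ∣ m ∧ Q p m), wt Q y z m -
          lam1 X * A0 * GG Q y z * ∏ p ∈ T, ((rhoA Q p : ℝ) / (p - 1 : ℝ))| ≤
          ∑ l ∈ Lp y z, Real.log l * fE Q z0 X z r (∏ p ∈ pz z0 ∪ insert l T, p) := by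
        rw [e5, e7, ← sum_sub_distrib]
        refine (abs_sum_le_sum_abs _ _).trans ?_
        apply sum_le_sum
        intro l hl
        rw [← mul_sub, abs_mul, abs_of_nonneg (Real.log_natCast_nonneg l)]
        exact mul_le_mul_of_nonneg_left (hterm l hl) (Real.log_natCast_nonneg l)
      convert h9)
  have f2 : lam1 X * A0 * GG Q y z * ∏ p ∈ P, (1 - (rhoA Q p : ℝ) / (p - 1 : ℝ)) =
      lam1 X * GG Q y z * ∏ p ∈ pz y, (1 - (rhoA Q p : ℝ) / (p - 1 : ℝ)) := by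
    rw [hpzy, prod_union hdisj]
    have : A0 = ∏ p ∈ pz z0, (1 - (rhoA Q p : ℝ) / (p - 1 : ℝ)) := by
      rw [hA0]
      apply prod_congr rfl
      intro p hp
      rw [rhoA_small Q z0 p (hpz0 p hp) (mem_pz.1 hp).1]
      have hp2 : (2 : ℝ) ≤ p := by exact_mod_cast (hpz0 p hp).two_le
      have hp3 : (p : ℝ) - 1 ≠ 0 := by linarith
      field_simp
    rw [this]
    ring
  rw [f2] at key
  have hsum : ∑ T ∈ P.powerset.filter (fun T : Finset ℕ => ∏ p ∈ T, p ≤ D),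
      ∑ l ∈ Lp y z, fE Q z0 X z r (∏ p ∈ pz z0 ∪ insert l T, p) ≤
      ∑ d ∈ Icc 1 (K0 * (D * z)), fE Q z0 X z r d :=
    sum_pair_le P (pz z0) (Lp y z) (fun p hp => (hPp p hp).1) (fun p hp => (mem_Lp.1 hp).1.2) hpz0
      (by rw [disjoint_union_right]; exact ⟨hdisj, hzL⟩) hPL D z (fun l hl => (mem_Lp.1 hl).1.1)
      (fun d => fE Q z0 X z r d) (fun d => fE_nonneg Q z0 X z r d)
  have hsum2 : ∑ d ∈ Icc 1 (K0 * (D * z)), fE Q z0 X z r d ≤ ∑ d ∈ Icc 1 (K0 * (D * z)), EfA (RQ Q z0) X z r d +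
      Real.exp (-(r : ℝ)) * (8 * X * Real.log X) * (1 + Real.log ((K0 * (D * z) : ℕ) : ℝ)) ^ (2 ^ k) := by
    unfold fE
    rw [sum_add_distrib, ← mul_sum]
    apply add_le_add le_rfl
    have h2 := Real.log_natCast_nonneg X
    apply mul_le_mul_of_nonneg_left (hk _) (by positivity)
  have hlz : 0 ≤ Real.log (z : ℝ) := Real.log_natCast_nonneg z
  have hsum3 : ∑ T ∈ P.powerset.filter (fun T : Finset ℕ => ∏ p ∈ T, p ≤ D),
      ∑ l ∈ Lp y z, Real.log l * fE Q z0 X z r (∏ p ∈ pz z0 ∪ insert l T, p) ≤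
      Real.log z * (∑ d ∈ Icc 1 (K0 * (D * z)), EfA (RQ Q z0) X z r d +
      Real.exp (-(r : ℝ)) * (8 * X * Real.log X) * (1 + Real.log ((K0 * (D * z) : ℕ) : ℝ)) ^ (2 ^ k)) := by
    refine le_trans ?_ (mul_le_mul_of_nonneg_left (hsum.trans hsum2) hlz)
    rw [mul_sum]
    apply sum_le_sum
    intro T _
    rw [mul_sum]
    apply sum_le_sum
    intro l hl
    apply mul_le_mul_of_nonneg_right _ (fE_nonneg _ _ _ _ _ _)
    have h1 := mem_Lp.1 hl
    exact Real.log_le_log (by exact_mod_cast h1.1.2.pos) (by exact_mod_cast h1.1.1)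
  have key' : |∑ n ∈ Sf0 Q z0 y X, wt Q y z n -
      lam1 X * GG Q y z * ∏ p ∈ pz y, (1 - (rhoA Q p : ℝ) / (p - 1 : ℝ))| ≤
      (1 / 2) ^ b * (lam1 X * GG Q y z * ∏ p ∈ pz y, (1 - (rhoA Q p : ℝ) / (p - 1 : ℝ))) +
      ((J : ℝ) + 2) * ∑ T ∈ P.powerset.filter (fun T : Finset ℕ => ∏ p ∈ T, p ≤ (2 ^ 2 ^ J) ^ (C0 * b)),
        ∑ l ∈ Lp y z, Real.log l * fE Q z0 X z r (∏ p ∈ pz z0 ∪ insert l T, p) := by
    unfold Sf0
    convert key
  have hJ0 : (0 : ℝ) ≤ (J : ℝ) + 2 := by positivity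
  have h3 := mul_le_mul_of_nonneg_left hsum3 hJ0
  linarith

end Pool.Agent.H32.PQ
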