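import Pool.Agent.H32.PQ.Bad
import Pool.Agent.H32.LP.Asym
import Pool.Graph.R_seed8.Y879.GL.QuadU

/-!
# Densities and the upper bound for the contribution of the small prime divisors
-/

set_option autoImplicit false

namespace Pool.Agent.H32.PQ

open Finset Polynomial Filter
open Pool.Agent.H373R2.T7 Pool.Agent.H474R2.PG Pool.Agent.W123.RP Pool.Agent.H32.LP
open Pool.Agent.Y879.GL Pool.Agent.TH464.PO

lemma nuB_eq (Q : ℕ → ℕ → Prop) (hbase : ∀ p n : ℕ, p.Prime → p ∣ n → Q p n) (p : ℕ) (hp : p.Prime) :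
    nuB Q p = rhoA Q p + 1 := by
  classical
  have h1 : rhoA Q p = ((range p).filter (fun r => ¬ p ∣ r ∧ Q p r)).card := by
    unfold rhoA
    convert rfl
  have h2 : nuB Q p = ((range p).filter (fun r => Q p r)).card := by
    unfold nuB
    convert rfl
  have h3 : (range p).filter (fun r => Q p r) = insert 0 ((range p).filter (fun r => ¬ p ∣ r ∧ Q p r)) := by
    ext r
    rw [mem_insert, mem_filter, mem_filter, mem_range]
    constructor
    · rintro ⟨h4, h5⟩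
      rcases Nat.eq_zero_or_pos r with h6 | h6
      · exact Or.inl h6
      · exact Or.inr ⟨h4, fun h7 => absurd (Nat.le_of_dvd h6 h7) (by omega), h5⟩
    · rintro (h4 | h4)
      · rw [h4]
        exact ⟨hp.pos, hbase p 0 hp (dvd_zero _)⟩
      · exact ⟨h4.1, h4.2.2⟩
  rw [h1, h2, h3, card_insert_of_notMem]
  rw [mem_filter]
  rintro ⟨_, h4, _⟩
  exact h4 (dvd_zero _)

lemma P_eq (Q : ℕ → ℕ → Prop) (hbase : ∀ p n : ℕ, p.Prime → p ∣ n → Q p n) (y : ℕ) (g : ℤ[X]) :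
    ∏ p ∈ pz y, (1 - (rhoA (Qe Q y g) p : ℝ) / (p - 1 : ℝ)) = Vq Q y / Vz y := by
  rw [eq_div_iff (Pool.Agent.Y879.PR.Vz_pos y).ne']
  unfold Vq Vz
  rw [← prod_mul_distrib]
  apply prod_congr rfl
  intro p hp
  obtain ⟨h1, h2⟩ := mem_pz.1 hp
  have h3 : (2 : ℝ) ≤ p := by exact_mod_cast h2.two_le
  have h4 : (p : ℝ) - 1 ≠ 0 := by linarith
  have h5 : (p : ℝ) ≠ 0 := by linarith
  rw [rhoA_Qe_small Q y g p h1, nuB_eq Q hbase p h2]
  push_cast
  field_simp
  ring

lemma pz_split (y y' : ℕ) (h : y ≤ y') : pz y' = pz y ∪ Lp y y' := by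
  ext p
  rw [mem_union, mem_pz, mem_pz, mem_Lp]
  constructor
  · rintro ⟨h1, h2⟩
    rcases Nat.lt_or_ge y p with h3 | h3
    · exact Or.inr ⟨⟨h1, h2⟩, h3⟩
    · exact Or.inl ⟨h3, h2⟩
  · rintro (⟨h1, h2⟩ | ⟨h1, _⟩)
    · exact ⟨by omega, h2⟩
    · exact h1

lemma pz_disj (y y' : ℕ) : Disjoint (pz y) (Lp y y') := by
  rw [disjoint_left]
  intro p hp hp'
  have h1 := (mem_pz.1 hp).1
  have h2 := (mem_Lp.1 hp').2
  omega

lemma Vq_Qu (Q : ℕ → ℕ → Prop) (hbase : ∀ p n : ℕ, p.Prime → p ∣ n → Q p n) (y y' : ℕ) (h : y ≤ y') :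
    Vq (Qu Q y) y' = Vq Q y / Vz y * Vz y' := by
  classical
  rw [div_mul_eq_mul_div, eq_div_iff (Pool.Agent.Y879.PR.Vz_pos y).ne']
  unfold Vq Vz
  rw [pz_split y y' h, prod_union (pz_disj y y'), prod_union (pz_disj y y')]
  have h1 : ∏ p ∈ pz y, (1 - (nuB (Qu Q y) p : ℝ) / p) = ∏ p ∈ pz y, (1 - (nuB Q p : ℝ) / p) := by
    apply prod_congr rfl
    intro p hp
    obtain ⟨h1, h2⟩ := mem_pz.1 hp
    have h3 : nuB (Qu Q y) p = nuB Q p := by
      unfold nuB
      congr 1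
      apply filter_congr
      intro r _
      unfold Qu
      constructor
      · rintro (h4 | h4)
        · exact h4.2
        · exact hbase p r h2 h4
      · intro h4
        exact Or.inl ⟨h1, h4⟩
    rw [h3]
  have h2 : ∏ p ∈ Lp y y', (1 - (nuB (Qu Q y) p : ℝ) / p) = ∏ p ∈ Lp y y', (1 - 1 / (p : ℝ)) := by
    apply prod_congr rfl
    intro p hp
    obtain ⟨⟨h1, h2⟩, h3⟩ := mem_Lp.1 hp
    have h4 : nuB (Qu Q y) p = 1 := by
      have h5 : nuB (Qu Q y) p = ((range p).filter (fun r => Qu Q y p r)).card := by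
        unfold nuB
        convert rfl
      have h6 : (range p).filter (fun r => Qu Q y p r) = {0} := by
        ext r
        rw [mem_filter, mem_range, mem_singleton]
        constructor
        · rintro ⟨h7, h8 | h8⟩
          · omega
          · rcases Nat.eq_zero_or_pos r with h9 | h9
            · exact h9
            · exact absurd (Nat.le_of_dvd h9 h8) (by omega)
        · intro h7
          rw [h7]
          exact ⟨h2.pos, Or.inr (dvd_zero _)⟩
      rw [h5, h6, card_singleton]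
    rw [h4]
    norm_num
  rw [h1, h2]
  ring

/-- upper bound for the mean value of the weights -/
lemma GG_up (Q : ℕ → ℕ → Prop) (y z : ℕ) (g : ℤ[X]) (R : ℕ → ℝ) (hy : 1 ≤ y)
    (hR : ∀ p : ℕ, p.Prime → y < p → (rho g p : ℝ) ≤ R p) (hR0 : ∀ p, 0 ≤ R p) (B : ℝ)
    (hB : ∑ p ∈ pz z, R p * Real.log p / p ≤ B) :
    GG (Qe Q y g) y z ≤ (1 + 1 / (y : ℝ)) * B := by
  have hy0 : (0 : ℝ) < y := by exact_mod_cast hy
  unfold GG
  have h1 : ∀ l ∈ Lp y z, Real.log l * ((rhoA (Qe Q y g) l : ℝ) / (l - 1 : ℝ)) ≤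
      (1 + 1 / (y : ℝ)) * (R l * Real.log l / l) := by
    intro l hl
    obtain ⟨⟨h1, h2⟩, h3⟩ := mem_Lp.1 hl
    have hlog := Real.log_natCast_nonneg l
    have h4 : ((y : ℝ) + 1) ≤ l := by exact_mod_cast h3
    have h5 : (rhoA (Qe Q y g) l : ℝ) ≤ R l := le_trans (by exact_mod_cast rhoA_Qe_large Q y g l h3) (hR l h2 h3)
    have h6 : 0 < (l : ℝ) - 1 := by linarith
    have h7 : 0 < (l : ℝ) := by linarith
    have h8 : (1 : ℝ) / (l - 1) ≤ (1 + 1 / (y : ℝ)) * (1 / l) := by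
      rw [div_le_iff₀ h6]
      have : (1 + 1 / (y : ℝ)) * (1 / l) * (l - 1) = ((y + 1) * (l - 1)) / (y * l) := by
        field_simp
      rw [this, le_div_iff₀ (by positivity)]
      nlinarith
    calc Real.log l * ((rhoA (Qe Q y g) l : ℝ) / (l - 1 : ℝ)) =
          (rhoA (Qe Q y g) l : ℝ) * Real.log l * (1 / (l - 1)) := by ring
      _ ≤ R l * Real.log l * ((1 + 1 / (y : ℝ)) * (1 / l)) := by
          apply mul_le_mul _ h8 (by positivity) (mul_nonneg (hR0 l) hlog)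
          exact mul_le_mul_of_nonneg_right h5 hlog
      _ = _ := by ring
  refine (sum_le_sum h1).trans ?_
  rw [← mul_sum]
  apply mul_le_mul_of_nonneg_left _ (by positivity)
  refine le_trans ?_ hB
  apply sum_le_sum_of_subset_of_nonneg (filter_subset _ _)
  intro p _ _
  have := Real.log_natCast_nonneg p
  have := hR0 p
  positivity

/-- the difference of the two asymptotic formulas -/
lemma diff_le (S2 S1 M A ε T T2 : ℝ) (U : ℕ) (hM : 0 < M) (hT : 0 < T) (hT2 : T ≤ T2)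
    (h2 : |S2 - 2 * M * A| ≤ ε * (2 * M * A) + 2 * M / T2 ^ U)
    (h1 : |S1 - M * A| ≤ ε * (M * A) + M / T ^ U) :
    S2 - S1 ≤ (1 + 3 * ε) * (M * A) + 3 * (M / T ^ U) := by
  have h3 := (abs_le.1 h2).2
  have h4 := (abs_le.1 h1).1
  have h5 : 2 * M / T2 ^ U ≤ 2 * (M / T ^ U) := by
    rw [mul_div_assoc]
    apply mul_le_mul_of_nonneg_left _ (by norm_num)
    apply div_le_div_of_nonneg_left hM.le (by positivity)
    exact pow_le_pow_left₀ hT.le hT2 U
  linarith

end Pool.Agent.H32.PQ
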