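import Pool.Agent.H32.PQ.Core

/-!
# The asymptotic formula for the weighted sum over the primes in a sifted set
-/

set_option autoImplicit false

namespace Pool.Agent.H32.PQ

open Finset Filter Pool.Agent.H373R2.T7

lemma GG_le (Q : ℕ → ℕ → Prop) (c y z : ℕ) (hQ : PerA Q c) (T : ℝ) (hT : 1 + Real.log z ≤ T) :
    GG Q y z ≤ c * T ^ 2 := by
  have hlz := Real.log_natCast_nonneg z
  have hT1 : 1 ≤ T := by linarith
  have h1 : GG Q y z ≤ ∑ l ∈ Lp y z, (Real.log z * c) * ((l - 1 : ℕ) : ℝ)⁻¹ := by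
    apply sum_le_sum
    intro l hl
    obtain ⟨⟨hlz', hlp⟩, _⟩ := mem_Lp.1 hl
    have h2 : (2 : ℝ) ≤ l := by exact_mod_cast hlp.two_le
    have h3 : ((l - 1 : ℕ) : ℝ) = (l : ℝ) - 1 := by
      rw [Nat.cast_sub hlp.one_le]; simp
    rw [h3, div_eq_mul_inv, ← mul_assoc]
    apply mul_le_mul_of_nonneg_right _ (inv_nonneg.2 (by linarith))
    apply mul_le_mul _ _ (Nat.cast_nonneg _) hlz
    · exact Real.log_le_log (by linarith) (by exact_mod_cast hlz')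
    · exact_mod_cast hQ.few l hlp
  refine h1.trans ?_
  rw [← mul_sum]
  have h2 : ∑ l ∈ Lp y z, ((l - 1 : ℕ) : ℝ)⁻¹ ≤ 1 + Real.log z := by
    have h3 : ∑ k ∈ (Lp y z).image (fun l : ℕ => l - 1), (k : ℝ)⁻¹ = ∑ l ∈ Lp y z, ((l - 1 : ℕ) : ℝ)⁻¹ :=
      sum_image (f := fun k : ℕ => (k : ℝ)⁻¹) (g := fun l : ℕ => l - 1) (by
        intro a ha b hb h
        have h4 := (mem_Lp.1 ha).1.2.one_le
        have h5 := (mem_Lp.1 hb).1.2.one_le
        simp only at h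
        omega)
    rw [← h3]
    refine le_trans ?_ (harmonic_le_one_add_log z)
    have h4 : ((harmonic z : ℚ) : ℝ) = ∑ k ∈ Icc 1 z, (k : ℝ)⁻¹ := by
      rw [harmonic_eq_sum_Icc]
      push_cast
      rfl
    rw [h4]
    apply sum_le_sum_of_subset_of_nonneg
    · intro k hk
      rw [mem_image] at hk
      obtain ⟨l, hl, rfl⟩ := hk
      have h4 := (mem_Lp.1 hl).1
      have h5 := h4.2.two_le
      rw [mem_Icc]
      omega
    · intro k _ _
      positivity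
  have h0 : 0 ≤ Real.log z * c := mul_nonneg hlz (Nat.cast_nonneg _)
  calc Real.log z * c * ∑ l ∈ Lp y z, ((l - 1 : ℕ) : ℝ)⁻¹ ≤ Real.log z * c * (1 + Real.log z) :=
        mul_le_mul_of_nonneg_left h2 h0
    _ = c * (Real.log z * (1 + Real.log z)) := by ring
    _ ≤ c * (T * T) := by
        apply mul_le_mul_of_nonneg_left _ (Nat.cast_nonneg _)
        apply mul_le_mul (by linarith) hT (by linarith) (by linarith)
    _ = c * T ^ 2 := by ring

open Classical in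
theorem fund (c : ℕ) (hc : 1 ≤ c) (ε : ℝ) (hε : 0 < ε) (α : ℝ) (hα : 0 < α) (hα2 : α < 1 / 2) :
    ∃ K z0 : ℕ, 1 ≤ K ∧ ∀ U : ℕ, ∃ x0 : ℕ, ∀ X y z : ℕ, x0 ≤ y → y ^ K ≤ X → y ≤ z →
    (z : ℝ) ≤ (X : ℝ) ^ α → ∀ Q : ℕ → ℕ → Prop, PerA Q c →
    |∑ n ∈ Sf0 Q z0 y X, wt Q y z n -
      X * (GG Q y z * ∏ p ∈ pz y, (1 - (rhoA Q p : ℝ) / (p - 1 : ℝ)))| ≤
      ε * (X * (GG Q y z * ∏ p ∈ pz y, (1 - (rhoA Q p : ℝ) / (p - 1 : ℝ)))) + X / Real.log X ^ U := by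
  obtain ⟨C0, k, hC0, hcore⟩ := core c hc
  obtain ⟨b1, hb1⟩ := exists_pow_lt_of_lt_one hε (show (1 / 2 : ℝ) < 1 by norm_num)
  obtain ⟨b, hbC, hbε⟩ : ∃ b, C0 ≤ b ∧ (1 / 2 : ℝ) ^ b ≤ ε := ⟨max C0 b1, le_max_left _ _,
    (pow_le_pow_of_le_one (by norm_num) (by norm_num) (le_max_right _ _)).trans hb1.le⟩
  have hCb : 1 ≤ C0 * b := Nat.mul_pos hC0 (by omega)
  obtain ⟨z0, hz0⟩ : ∃ z0, z0 = C0 + c := ⟨_, rfl⟩
  rw [← hz0] at hcore
  obtain ⟨K0, hK0⟩ : ∃ K0, K0 = ∏ p ∈ pz z0, p := ⟨_, rfl⟩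
  rw [← hK0] at hcore
  obtain ⟨γ, hγ⟩ : ∃ γ : ℝ, γ = 1 / 2 - α := ⟨_, rfl⟩
  have hγ0 : 0 < γ := by rw [hγ]; linarith
  obtain ⟨K1, hK1⟩ := exists_nat_ge (2 * (2 * ((C0 * b : ℕ) : ℝ) + 1) / γ)
  refine ⟨max K1 1, z0, le_max_right _ _, fun U' => ?_⟩
  obtain ⟨U, hU⟩ : ∃ U, U = U' + 3 := ⟨_, rfl⟩
  obtain ⟨m, hm⟩ : ∃ m, m = U + 2 ^ k + 6 := ⟨_, rfl⟩
  obtain ⟨B, X0, hBV⟩ := H343E.unsmoothed (m * z0 + 1 + U + 4)
  obtain ⟨C, N1, hC, hpnt⟩ := pnt_lam (U + 3)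
  obtain ⟨n2, h2⟩ := ev_L' ((2 * C + 70) * 2 ^ U + z0 + 4 + c)
  have hev : ∀ᶠ X : ℕ in atTop, Real.log (X : ℝ) ^ (B + U + 5) ≤ (X : ℝ) ^ γ := by
    have h := ((isLittleO_log_rpow_rpow_atTop ((B + U + 5 : ℕ) : ℝ) hγ0).comp_tendsto
      tendsto_natCast_atTop_atTop).bound (by norm_num : (0 : ℝ) < 1)
    filter_upwards [h, eventually_ge_atTop 1] with X h2 hX1
    have hX1' : (1 : ℝ) ≤ X := by exact_mod_cast hX1
    have hlog : 0 ≤ Real.log (X : ℝ) := Real.log_nonneg hX1'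
    simp only [Function.comp_def] at h2
    rw [Real.norm_of_nonneg (by positivity), Real.norm_of_nonneg (by positivity),
      Real.rpow_natCast, one_mul] at h2
    exact h2
  obtain ⟨n1, h1⟩ := eventually_atTop.1 hev
  obtain ⟨N2, hN2⟩ : ∃ N2, N2 = max (max ⌈X0⌉₊ N1) (max n1 (max n2 2)) := ⟨_, rfl⟩
  refine ⟨max N2 (max K0 (z0 + 3)), fun X y z hy hyX hyz hzX Q hQ => ?_⟩
  have c1 : N2 ≤ y := (le_max_left _ _).trans hy
  have c4 : K0 ≤ y := ((le_max_left _ _).trans (le_max_right _ _)).trans hy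
  have c5 : z0 + 3 ≤ y := ((le_max_right _ _).trans (le_max_right _ _)).trans hy
  have hyX1 : y ≤ X := le_trans (by
    calc y = y ^ 1 := (pow_one y).symm
      _ ≤ y ^ (max K1 1) := Nat.pow_le_pow_right (by omega) (le_max_right _ _)) hyX
  have hXN : N2 ≤ X := c1.trans hyX1
  rw [hN2] at hXN
  have d1 := le_trans (le_trans (le_max_left _ _) (le_max_left _ _)) hXN
  have d2 := le_trans (le_trans (le_max_right _ _) (le_max_left _ _)) hXN
  have d3 := le_trans (le_trans (le_max_left _ _) (le_max_right _ _)) hXN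
  have d4 := le_trans (le_trans (le_trans (le_max_left _ _) (le_max_right _ _)) (le_max_right _ _)) hXN
  have d5 : 2 ≤ X := le_trans (le_trans (le_trans (le_max_right _ _) (le_max_right _ _)) (le_max_right _ _)) hXN
  have a1 := h1 X d3
  have a2 := h2 X d4
  have hXr : (2 : ℝ) ≤ X := by exact_mod_cast d5
  have hX0 : (0 : ℝ) < X := by linarith
  have hX1 : (1 : ℝ) ≤ X := by linarith
  have hP := hpnt X d2
  have hX0' : X0 ≤ (X : ℝ) := (Nat.le_ceil _).trans (by exact_mod_cast d1)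
  obtain ⟨T, hTd⟩ : ∃ T, T = Real.log X := ⟨_, rfl⟩
  rw [← hTd] at a1 a2 hP
  have hC0' : 0 ≤ (2 * C + 70) * 2 ^ U := by positivity
  have hz00 : (0 : ℝ) ≤ z0 := Nat.cast_nonneg _
  have hc0 : (1 : ℝ) ≤ c := by exact_mod_cast hc
  have hT4 : 4 ≤ T := by linarith
  have hT1 : 1 ≤ T := by linarith
  have hT0 : 0 < T := by linarith
  have hzT : (z0 : ℝ) ≤ T := by linarith
  have hTC : (2 * C + 70) * 2 ^ U ≤ T := by linarith
  have hz1 : 1 ≤ z0 := by omega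
  obtain ⟨Pq, hPq⟩ : ∃ Pq, Pq = ∏ p ∈ pz y, (1 - (rhoA Q p : ℝ) / (p - 1 : ℝ)) := ⟨_, rfl⟩
  have hP0 : 0 ≤ Pq := by rw [hPq]; exact prod_nonneg fun p hp => (facA Q p (mem_pz.1 hp).2).1
  have hP1 : Pq ≤ 1 := by rw [hPq]; exact prod_le_one (fun p hp => (facA Q p (mem_pz.1 hp).2).1) (fun p hp => (facA Q p (mem_pz.1 hp).2).2)
  obtain ⟨DD, hDD⟩ : ∃ DD, DD = K0 * ((2 ^ 2 ^ JJ y) ^ (C0 * b) * z) := ⟨_, rfl⟩
  have hK01 : 1 ≤ K0 := by
    rw [hK0]
    exact Nat.pos_of_ne_zero (prod_ne_zero_iff.2 fun p hp => (mem_pz.1 hp).2.ne_zero)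
  have hy2 : 2 ≤ y := by omega
  have hz1' : 1 ≤ z := by omega
  have hDD1 : 1 ≤ DD := by
    rw [hDD]
    exact Nat.mul_pos hK01 (Nat.mul_pos (by positivity) hz1')
  have hzDD : z ≤ DD := by
    rw [hDD]
    calc z = 1 * (1 * z) := by ring
      _ ≤ K0 * ((2 ^ 2 ^ JJ y) ^ (C0 * b) * z) := by
        apply Nat.mul_le_mul hK01
        exact Nat.mul_le_mul_right _ (Nat.one_le_pow _ _ (by positivity))
  have hDDr1 : (1 : ℝ) ≤ DD := by exact_mod_cast hDD1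
  -- the size of `DD`
  have hDDle : (DD : ℝ) ≤ (X : ℝ) ^ (1 / 2 - γ / 2) := by
    have h5 : K0 * (2 ^ 2 ^ JJ y) ^ (C0 * b) ≤ y ^ (2 * (C0 * b) + 1) := by
      rw [pow_succ, mul_comm]
      apply Nat.mul_le_mul _ c4
      calc (2 ^ 2 ^ JJ y) ^ (C0 * b) ≤ (y ^ 2) ^ (C0 * b) := Nat.pow_le_pow_left (JJ_le y hy2) _
        _ = _ := by rw [← pow_mul]
    have h6 : ((y ^ (2 * (C0 * b) + 1) : ℕ) : ℝ) ≤ (X : ℝ) ^ (γ / 2) := by
      have hyr0 : (0 : ℝ) ≤ y := Nat.cast_nonneg y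
      have hKK : (0 : ℝ) < ((max K1 1 : ℕ) : ℝ) := by
        exact_mod_cast lt_of_lt_of_le Nat.one_pos (le_max_right K1 1)
      have h7 : (y : ℝ) ≤ (X : ℝ) ^ (1 / ((max K1 1 : ℕ) : ℝ)) := by
        have h8 : (y : ℝ) ^ (max K1 1) ≤ X := by exact_mod_cast hyX
        calc (y : ℝ) = ((y : ℝ) ^ (max K1 1)) ^ (1 / ((max K1 1 : ℕ) : ℝ)) := by
              rw [← Real.rpow_natCast, ← Real.rpow_mul hyr0, mul_one_div_cancel hKK.ne', Real.rpow_one]
          _ ≤ _ := Real.rpow_le_rpow (by positivity) h8 (by positivity)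
      push_cast
      calc (y : ℝ) ^ (2 * (C0 * b) + 1) ≤ ((X : ℝ) ^ (1 / ((max K1 1 : ℕ) : ℝ))) ^ (2 * (C0 * b) + 1) :=
            pow_le_pow_left₀ hyr0 h7 _
        _ = (X : ℝ) ^ (1 / ((max K1 1 : ℕ) : ℝ) * ((2 * (C0 * b) + 1 : ℕ) : ℝ)) := by
            rw [← Real.rpow_natCast, ← Real.rpow_mul hX0.le]
        _ ≤ (X : ℝ) ^ (γ / 2) := by
            apply Real.rpow_le_rpow_of_exponent_le hX1
            have h9 : (K1 : ℝ) ≤ ((max K1 1 : ℕ) : ℝ) := by exact_mod_cast le_max_left K1 1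
            have h10 := hK1.trans h9
            rw [div_le_iff₀ hγ0] at h10
            rw [one_div, inv_mul_le_iff₀ hKK]
            push_cast at h10 ⊢
            nlinarith
    calc (DD : ℝ) = ((K0 * (2 ^ 2 ^ JJ y) ^ (C0 * b) : ℕ) : ℝ) * z := by
          rw [hDD]; push_cast; ring
      _ ≤ (X : ℝ) ^ (γ / 2) * (X : ℝ) ^ α := by
          apply mul_le_mul _ hzX (Nat.cast_nonneg _) (by positivity)
          exact le_trans (by exact_mod_cast h5) h6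
      _ = (X : ℝ) ^ (1 / 2 - γ / 2) := by
          rw [← Real.rpow_add hX0]
          congr 1
          rw [hγ]
          ring
  have hDD2 : (DD : ℝ) ^ 2 ≤ (X : ℝ) ^ (1 - γ) := by
    calc (DD : ℝ) ^ 2 ≤ ((X : ℝ) ^ (1 / 2 - γ / 2)) ^ 2 := pow_le_pow_left₀ (by positivity) hDDle 2
      _ = (X : ℝ) ^ (1 - γ) := by
          rw [← Real.rpow_natCast, ← Real.rpow_mul hX0.le]
          congr 1
          push_cast
          ring
  have hXγ : (X : ℝ) ^ (1 - γ) = X / (X : ℝ) ^ γ := by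
    rw [Real.rpow_sub hX0, Real.rpow_one]
  have hXγ0 : 0 < (X : ℝ) ^ γ := by positivity
  have hpowT : ∀ j, j ≤ B + U + 5 → T ^ j ≤ (X : ℝ) ^ γ := fun j hj =>
    (pow_le_pow_right₀ hT1 hj).trans a1
  have hXB : ∀ j, j ≤ B + U + 5 → (X : ℝ) ^ (1 - γ) ≤ X / T ^ j := by
    intro j hj
    rw [hXγ]
    exact div_le_div_of_nonneg_left hX0.le (by positivity) (hpowT j hj)
  have hDDB : (DD : ℝ) ^ 2 ≤ X / T ^ B := hDD2.trans (hXB B (by omega))
  have hDDsq : (DD : ℝ) ≤ (DD : ℝ) ^ 2 := le_self_pow₀ hDDr1 (by norm_num)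
  have hDDX : DD ≤ X := by
    have h5 : (DD : ℝ) ≤ X := by
      refine hDDsq.trans (hDDB.trans ?_)
      exact div_le_self hX0.le (one_le_pow₀ hT1)
    exact_mod_cast h5
  have hlogDD : 1 + Real.log (DD : ℝ) ≤ T := by
    have h6 := Real.log_le_log (by positivity) hDDle
    rw [Real.log_rpow hX0, ← hTd] at h6
    nlinarith
  have hlogz : 1 + Real.log (z : ℝ) ≤ T := by
    refine le_trans ?_ hlogDD
    have h6 := Real.log_le_log (show (0 : ℝ) < z by exact_mod_cast hz1') (show (z : ℝ) ≤ DD by exact_mod_cast hzDD)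
    linarith
  obtain ⟨r, hr⟩ : ∃ r, r = ⌈(m : ℝ) * Real.log T⌉₊ := ⟨_, rfl⟩
  obtain ⟨hr1, hr2⟩ := num_r T m z0 hT1 hz1 hzT
  rw [← hr] at hr1 hr2
  have hA1 : 1 ≤ T ^ (m * z0 + 1) := one_le_pow₀ hT1
  have hbv := hBV X hX0' (T ^ (m * z0 + 1)) hA1 DD (by rw [← hTd]; exact hDDsq.trans hDDB) (by
    rw [← hTd]
    refine hDDB.trans ?_
    apply div_le_div_of_nonneg_right _ (by positivity)
    exact le_mul_of_one_le_left hX0.le hA1) (LSA (RQ Q z0) z r) (LSA_fam (RQ Q z0) (RQ_per Q hQ z0 (by omega)) hz1 z r _ hr2)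
  have hEf : ∑ d ∈ Icc 1 DD, EfA (RQ Q z0) X z r d ≤ T ^ (m * z0 + 1) * X / T ^ (m * z0 + 1 + U + 4) := by
    rw [← hTd] at hbv
    refine le_trans (le_of_eq ?_) hbv
    apply sum_congr rfl
    intro d _
    unfold EfA
    apply sum_congr rfl
    intro b _
    rw [lamAP_eq, lam1_eq']
  have hW := hcore b hbC y z X r (by omega) hyz (by rw [← hDD]; exact hDDX) (by rw [← hTd]; exact hT1) Q hQ
  rw [← hPq, ← hDD, ← hTd] at hW
  rw [← hPq, ← hTd]
  have hGG0 := GG_nonneg Q y z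
  have hGG1 := GG_le Q c y z hQ T hlogz
  obtain ⟨S, hS⟩ : ∃ S, S = ∑ n ∈ Sf0 Q z0 y X, wt Q y z n := ⟨_, rfl⟩
  rw [← hS] at hW ⊢
  obtain ⟨G, hG⟩ : ∃ G, G = GG Q y z := ⟨_, rfl⟩
  rw [← hG] at hW hGG0 hGG1 ⊢
  obtain ⟨R, hR⟩ : ∃ R : ℝ, R = c * T ^ 2 := ⟨_, rfl⟩
  have hR0 : 0 < R := by rw [hR]; positivity
  rw [← hR] at hGG1
  have hTT : T ≤ T ^ 2 := le_self_pow₀ hT1 (by norm_num)
  have hRT : T ≤ R := by rw [hR]; nlinarith
  obtain ⟨E1, hE1⟩ : ∃ E1, E1 = ∑ d ∈ Icc 1 DD, EfA (RQ Q z0) X z r d := ⟨_, rfl⟩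
  rw [← hE1] at hW hEf
  have hE10 : 0 ≤ E1 := by rw [hE1]; exact sum_nonneg fun d _ => EfA_nonneg _ _ _ _ _
  have hψ0 : 0 ≤ lam1 X := sum_nonneg fun _ _ => ArithmeticFunction.vonMangoldt_nonneg
  have hlz0 := Real.log_natCast_nonneg z
  have hnum := num_tot C ε ((1 / 2) ^ b) X X T T (Pq * (G / R)) (lam1 X) (S / R) E1 ((JJ y : ℝ) + 2)
      0 U k m z0 hm hX0 le_rfl hT1 (by linarith) hT0 (by positivity)
      (by
        have : G / R ≤ 1 := (div_le_one hR0).2 hGG1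
        have h0 : 0 ≤ G / R := by positivity
        nlinarith)
      (by positivity)
      (pow_le_one₀ (by norm_num) (by norm_num)) hbε hC hP hEf (by positivity) (by
        have h5 : JJ y ≤ Nat.log 2 X + 1 := by
          unfold JJ
          have := Nat.log_le_self 2 (Nat.log 2 y)
          have h6 : Nat.log 2 y ≤ Nat.log 2 X := Nat.log_mono_right (by omega)
          omega
        have h6 : (JJ y : ℝ) ≤ Nat.log 2 X + 1 := by exact_mod_cast h5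
        have h7 := natlog_le X (by omega)
        rw [← hTd] at h7
        linarith) (by positivity) (by
        have h8 := hXB (U + 3) (by omega)
        have h9 : (1 : ℝ) ≤ (X : ℝ) ^ (1 - γ) := Real.one_le_rpow hX1 (by rw [hγ]; linarith)
        have h10 := h9.trans h8
        rwa [one_le_div (by positivity)] at h10) hTC (by
        have h11 : (0 : ℝ) ≤ 1 + Real.log (DD : ℝ) := by have := Real.log_nonneg hDDr1; linarith
        have h12 : Real.exp (-(r : ℝ)) * (8 * X * T) * (1 + Real.log (DD : ℝ)) ^ (2 ^ k) ≤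
            (1 / T ^ m) * (8 * X * T) * T ^ (2 ^ k) := by
          apply mul_le_mul _ (pow_le_pow_left₀ h11 hlogDD _) (by positivity) (by positivity)
          exact mul_le_mul_of_nonneg_right hr1 (by positivity)
        have h13 : S / R - lam1 X * (Pq * (G / R)) = (S - lam1 X * G * Pq) / R := by
          field_simp
        rw [h13, abs_div, abs_of_pos hR0, div_le_iff₀ hR0]
        refine hW.trans ?_
        have h14 : ((1 / 2) ^ b * (lam1 X * (Pq * (G / R))) + 0 +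
            ((JJ y : ℝ) + 2) * (E1 + 1 / T ^ m * (8 * X * T) * T ^ 2 ^ k)) * R =
            (1 / 2) ^ b * (lam1 X * G * Pq) +
            ((JJ y : ℝ) + 2) * (R * (E1 + 1 / T ^ m * (8 * X * T) * T ^ 2 ^ k)) := by
          field_simp
          ring
        rw [h14]
        apply add_le_add le_rfl
        apply mul_le_mul_of_nonneg_left _ (by positivity)
        apply mul_le_mul (by linarith) (by linarith) _ hR0.le
        have : 0 ≤ Real.exp (-(r : ℝ)) * (8 * X * T) * (1 + Real.log (DD : ℝ)) ^ (2 ^ k) := by positivity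
        linarith)
  have h15 : S / R - X * (Pq * (G / R)) = (S - X * (G * Pq)) / R := by
    field_simp
  rw [h15, abs_div, abs_of_pos hR0, div_le_iff₀ hR0] at hnum
  refine hnum.trans ?_
  have h16 : (ε * (X * (Pq * (G / R))) + X / T ^ U) * R = ε * (X * (G * Pq)) + X / T ^ U * R := by
    field_simp
  rw [h16]
  apply add_le_add le_rfl
  have hcT : (c : ℝ) ≤ T := by linarith
  have h17 : R ≤ T ^ 3 := by
    rw [hR]
    calc (c : ℝ) * T ^ 2 ≤ T * T ^ 2 := mul_le_mul_of_nonneg_right hcT (by positivity)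
      _ = T ^ 3 := by ring
  calc X / T ^ U * R ≤ X / T ^ U * T ^ 3 := mul_le_mul_of_nonneg_left h17 (by positivity)
    _ = X / T ^ U' := by
        rw [hU, pow_add]
        field_simp

end Pool.Agent.H32.PQ
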