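import Pool.Agent.H32.PQ.Three

/-!
# Primes `q` such that `q ^ 2 - 2` and `N - m q` are almost primes with large prime factors
-/

set_option autoImplicit false

namespace Pool.Agent.H32.PQ

open Finset Polynomial Filter Topology
open Pool.Agent.H373R2.T7 Pool.Agent.H474R2.PG Pool.Agent.W123.RP Pool.Agent.H32.LP
open Pool.Agent.Y879.GL Pool.Agent.TH464.PO Pool.Agent.TH464.PW
open Pool.Agent.W123.RU.Poly (Q per per1)
open Pool.Agent.Results.MP_4011c3_nt.PrimeQEveryPair (Admissible Rem Pr pr_eq W_eq V_eq)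

lemma rho_s1 (N m : ℕ) (p : ℕ) : rho (s3 N m 1) p = rho (quad 1 0 (-2)) p := rfl

lemma rho_X (p : ℕ) (hp : p.Prime) : rho X p = 1 := by
  classical
  have h2 : rho X p = ((range p).filter (fun r : ℕ => (p : ℤ) ∣ (X : ℤ[X]).eval (r : ℤ))).card := by
    unfold rho
    convert rfl
  have h3 : (range p).filter (fun r : ℕ => (p : ℤ) ∣ (X : ℤ[X]).eval (r : ℤ)) = {0} := by
    ext r
    rw [mem_filter, mem_range, mem_singleton, eval_X, Int.natCast_dvd_natCast]
    constructor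
    · rintro ⟨h4, h5⟩
      rcases Nat.eq_zero_or_pos r with h6 | h6
      · exact h6
      · exact absurd (Nat.le_of_dvd h6 h5) (by omega)
    · intro h4
      rw [h4]
      exact ⟨hp.pos, dvd_zero _⟩
  rw [h2, h3, card_singleton]

lemma rho_s2 (N m : ℕ) (hcop : Nat.Coprime m N) (p : ℕ) (hp : p.Prime) : rho (s3 N m 2) p ≤ 1 := by
  classical
  have h2 : rho (s3 N m 2) p = ((range p).filter (fun r : ℕ => (p : ℤ) ∣ (s3 N m 2).eval (r : ℤ))).card := by
    unfold rho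
    convert rfl
  rw [h2]
  refine le_trans (card_le_card ?_) (one_root N m p hp hcop)
  intro r hr
  rw [mem_filter, s3_eval2] at hr
  rw [mem_filter]
  exact hr

lemma sep_s1 (N m : ℕ) (p : ℕ) (hp : p.Prime) (hp2 : 2 < p) (x : ℤ) (h : (p : ℤ) ∣ (s3 N m 1).eval x) :
    ¬ (p : ℤ) ∣ (s3 N m 1).derivative.eval x := by
  have e1 : (s3 N m 1).derivative.eval x = 2 * x := by
    change (derivative (quad 1 0 (-2))).eval x = _
    have : quad 1 0 (-2) = X ^ 2 - C 2 := by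
      unfold quad
      simp
      ring
    rw [this]
    simp
  rw [e1]
  rw [s3_eval1] at h
  intro h1
  have hpp := Nat.prime_iff_prime_int.1 hp
  have h2 : ¬ (p : ℤ) ∣ 2 := by
    intro h2
    have h3 : p ∣ 2 := by exact_mod_cast h2
    have := Nat.le_of_dvd (by norm_num) h3
    omega
  have h3 := (hpp.dvd_or_dvd h1).resolve_left h2
  apply h2
  have h4 : (p : ℤ) ∣ x ^ 2 := dvd_pow h3 two_ne_zero
  have h5 := dvd_sub h4 h
  rwa [sub_sub_cancel] at h5

lemma sep_s2 (N m : ℕ) (hcop : Nat.Coprime m N) (p : ℕ) (hp : p.Prime) (x : ℤ)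
    (h : (p : ℤ) ∣ (s3 N m 2).eval x) : ¬ (p : ℤ) ∣ (s3 N m 2).derivative.eval x := by
  have e1 : (s3 N m 2).derivative.eval x = -(m : ℤ) := by
    change (derivative (C (-(m : ℤ)) * X + C (N : ℤ))).eval x = _
    simp
  rw [e1, dvd_neg]
  rw [s3_eval2] at h
  intro h2
  have h3 : (p : ℤ) ∣ N := by
    have := dvd_add h (h2.mul_right x)
    rwa [sub_add_cancel] at this
  have h4 : p ∣ Nat.gcd m N := Nat.dvd_gcd (by exact_mod_cast h2) (by exact_mod_cast h3)
  rw [hcop] at h4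
  exact hp.one_lt.ne' (Nat.dvd_one.1 h4)

lemma BP_mono (P : ℕ → ℕ → Prop) (g : ℤ[X]) (y M z z' : ℕ) (h : z ≤ z') : BP P g y M z ⊆ BP P g y M z' := by
  classical
  intro q hq
  rw [BP, mem_filter] at hq ⊢
  exact ⟨hq.1, fun p hp hpd => (hq.2 p hp hpd).trans h⟩

/-- the set of the primes of the theorem -/
theorem pr_SP (m n s r M : ℕ) : Pr m n s r M M = SP (Q (s3 (n - s) m)) (yl r n) M := by
  classical
  rw [pr_eq]
  unfold Pool.Agent.Y879.PR.Om
  ext q
  rw [mem_filter, mem_SP, mem_Ioc, one_mul, add_zero]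
  unfold Sf yl
  have : M + M = 2 * M := by ring
  rw [this]

lemma final_arith (S b1 b2 A T L2 η κ : ℝ) (hT : 0 < T) (hη : 0 < η) (hη1 : η ≤ 1 / 16)
    (hκ : 8 * η ≤ 1 / 4 - κ) (hS : 0 ≤ S) (hL : L2 ≤ (1 + η) * T) (h0 : (1 - η) * A ≤ S * L2)
    (h1 : b1 * (2 * T) ≤ (1 / 2 + η) * A) (h2 : b2 * T ≤ (1 / 2 + η) * A) :
    b1 + b2 ≤ (1 - κ) * S := by
  have k1 : S * L2 ≤ S * ((1 + η) * T) := mul_le_mul_of_nonneg_left hL hS
  have k2 : (b1 + b2) * T ≤ 3 / 2 * (1 / 2 + η) * A := by linarith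
  have k3 : (b1 + b2) * T * (1 - η) ≤ 3 / 2 * (1 / 2 + η) * A * (1 - η) :=
    mul_le_mul_of_nonneg_right k2 (by linarith)
  have k4 : 3 / 2 * (1 / 2 + η) * ((1 - η) * A) ≤ 3 / 2 * (1 / 2 + η) * (S * ((1 + η) * T)) :=
    mul_le_mul_of_nonneg_left (h0.trans k1) (by positivity)
  have k5 : ((b1 + b2) * (1 - η)) * T ≤ (3 / 2 * (1 / 2 + η) * (1 + η) * S) * T := by linarith
  have k6 := le_of_mul_le_mul_right k5 hT
  have k7 : 3 / 2 * (1 / 2 + η) * (1 + η) ≤ (1 - κ) * (1 - η) := by nlinarith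
  have k8 : 3 / 2 * (1 / 2 + η) * (1 + η) * S ≤ (1 - κ) * (1 - η) * S := mul_le_mul_of_nonneg_right k7 hS
  have k9 : (b1 + b2) * (1 - η) ≤ ((1 - κ) * S) * (1 - η) := by linarith
  exact le_of_mul_le_mul_right k9 (by linarith)

theorem main (κ : ℝ) (hκ : κ < 1 / 4) : ∃ δ : ℝ, 0 < δ ∧ δ ≤ 1 / 8 ∧ ∀ θ : ℝ, 0 < θ →
    ∃ r0 : ℕ, 4 ≤ r0 ∧ ∀ r : ℕ, r0 ≤ r → ∃ c : ℝ, 0 < c ∧ ∀ᶠ n : ℕ in atTop, ∀ m : ℕ, Admissible m n →
      (m : ℝ) ≤ (n : ℝ) ^ (1 - θ) → ∀ s : ℕ, Rem m n s → ∀ M : ℕ, M = (n - s) / (4 * m) →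
      (n : ℝ) ^ (θ / 2) ≤ M ∧ c * (n / (m * Real.log n ^ 3)) ≤ ((SP (Q (s3 (n - s) m)) (yl r n) M).card : ℝ) ∧
      ((BP (Q (s3 (n - s) m)) (s3 (n - s) m 1) (yl r n) M ⌊(M : ℝ) ^ (1 / 2 + δ)⌋₊).card : ℝ) +
        ((BP (Q (s3 (n - s) m)) (s3 (n - s) m 2) (yl r n) M ⌊(M : ℝ) ^ (1 / 2 + δ)⌋₊).card : ℝ) ≤
        (1 - κ) * ((SP (Q (s3 (n - s) m)) (yl r n) M).card : ℝ) := by
  classical
  obtain ⟨η, hη⟩ : ∃ η, η = min (1 / 16) ((1 / 4 - κ) / 8) := ⟨_, rfl⟩
  have hη0 : 0 < η := by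
    rw [hη]
    exact lt_min (by norm_num) (by linarith)
  have hη1 : η ≤ 1 / 16 := by rw [hη]; exact min_le_left _ _
  have hη2 : 8 * η ≤ 1 / 4 - κ := by
    have : η ≤ (1 / 4 - κ) / 8 := by rw [hη]; exact min_le_right _ _
    linarith
  obtain ⟨δ1, hδ1, hδ1', H1⟩ := bad_asym 7 (by norm_num) 2 (quad 1 0 (-2)) irr2
    (by rw [quad_deg 1 0 (-2) one_ne_zero]; norm_num) 2 η hη0
  obtain ⟨δ2, hδ2, hδ2', H2⟩ := bad_asym 7 (by norm_num) 2 X irreducible_X
    (by rw [natDegree_X]; norm_num) 1 η hη0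
  obtain ⟨B, hB⟩ := rho_le (quad 1 0 (-2)) irr2.ne_zero
  obtain ⟨w, hw, hW⟩ := W_low
  refine ⟨min δ1 δ2, lt_min hδ1 hδ2, (min_le_left _ _).trans hδ1', fun θ hθ => ?_⟩
  obtain ⟨ra, hra, H1⟩ := H1 (θ / 2) (by positivity)
  obtain ⟨rb, hrb, H2⟩ := H2 (θ / 2) (by positivity)
  obtain ⟨rc, H3⟩ := Pool.Agent.Results.MP_4011c3_nt.PrimeQEveryPair.result (θ / 2) (1 / 2) 1 η
    (by positivity) (by norm_num) (by norm_num) hη0 (by linarith)
  refine ⟨max ra (max rb rc), hra.trans (le_max_left _ _), fun r hr => ?_⟩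
  have hr1 : ra ≤ r := (le_max_left _ _).trans hr
  have hr2 : rb ≤ r := ((le_max_left _ _).trans (le_max_right _ _)).trans hr
  have hr3 : rc ≤ r := ((le_max_right _ _).trans (le_max_right _ _)).trans hr
  have hr4 : 4 ≤ r := hra.trans hr1
  have hrr : (0 : ℝ) < r := by exact_mod_cast (by omega : 0 < r)
  obtain ⟨n3, H3⟩ := H3 r hr3
  refine ⟨w / 64, by positivity, ?_⟩
  have hnθ : Tendsto (fun n : ℕ => (n : ℝ) ^ (θ / 2)) atTop atTop :=
    (tendsto_rpow_atTop (by positivity)).comp (tendsto_natCast_atTop_atTop (R := ℝ))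
  have hE : Real.exp (Real.log 2 / η) > 0 := Real.exp_pos _
  filter_upwards [H1 r hr1, H2 r hr2, eventually_ge_atTop n3, eventually_ge_atTop 16,
    (yl_tendsto r (by omega)).eventually_ge_atTop (B + 3),
    hnθ.eventually_ge_atTop (Real.exp (Real.log 2 / η) + 16)] with n H1 H2 hn3 hn16 hny hnθ
  intro m hadm hmn s hs M hM
  obtain ⟨_, H3⟩ := H3 n hn3 m hadm
  obtain ⟨_, ⟨_, H3⟩, _⟩ := H3 s hs
  obtain ⟨hm1, hmn1, hadm'⟩ := hadm
  obtain ⟨hs1, hs2, hs3⟩ := hs
  have hn0 : (0 : ℝ) < n := by exact_mod_cast (by omega : 0 < n)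
  have hn16r : (16 : ℝ) ≤ n := by exact_mod_cast hn16
  have hn1 : (1 : ℝ) ≤ n := by linarith
  have hm1r : (1 : ℝ) ≤ m := by exact_mod_cast hm1
  have hm0 : (0 : ℝ) < m := by linarith
  -- the system
  obtain ⟨N, hN⟩ : ∃ N, N = n - s := ⟨_, rfl⟩
  have hhalf : (n : ℝ) ^ (1 / 2 : ℝ) < ((n - s : ℕ) : ℝ) := by
    have e1 : (n : ℝ) ≤ 2 * ((n - s : ℕ) : ℝ) := by
      have : n ≤ 2 * (n - s) := by omega
      exact_mod_cast this
    have e2 : (n : ℝ) ^ (1 / 2 : ℝ) * (n : ℝ) ^ (1 / 2 : ℝ) = n := by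
      rw [← Real.rpow_add hn0]
      norm_num
    have e3 : 0 < (n : ℝ) ^ (1 / 2 : ℝ) := by positivity
    have e4 : 4 ≤ (n : ℝ) ^ (1 / 2 : ℝ) := by
      by_contra hcon
      rw [not_le] at hcon
      nlinarith
    nlinarith
  have hus : US 3 2 ((n : ℝ) ^ (1 : ℝ)) ((n : ℝ) ^ (1 / 2 : ℝ)) (s3 (n - s) m) := by
    apply s3_us (n - s) m _ _ hm1 hs2 hs3 _ _ _ hhalf
    · rw [Real.rpow_one]
      exact_mod_cast Nat.sub_le n s
    · rw [Real.rpow_one]
      exact_mod_cast (by omega : m ≤ n)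
    · rw [Real.rpow_one]
      linarith
  have hperB : PerB (Q (s3 (n - s) m)) 7 := us_perB hus
  have hadm0 : ∀ p : ℕ, p.Prime → nuB (Q (s3 (n - s) m)) p < p := us_adm hus
  have hbase : ∀ p k : ℕ, p.Prime → p ∣ k → Q (s3 (n - s) m) p k := fun p k _ hk => by
    rw [Q3_iff]
    exact Or.inl hk
  -- the sizes
  have hN2 : n ≤ 2 * (n - s) := by omega
  have hM4 : 4 * m * M ≤ n - s := by
    rw [hM]
    exact Nat.mul_div_le _ _
  have hM5 : n - s < 4 * m * (M + 1) := by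
    rw [hM]
    exact Nat.lt_mul_div_succ _ (by omega)
  have e1 : (n : ℝ) < 8 * m * (M + 1) := by
    have : n < 8 * m * (M + 1) := by nlinarith
    exact_mod_cast this
  have e3 : (n : ℝ) ^ (1 - θ) * (n : ℝ) ^ θ = n := by
    rw [← Real.rpow_add hn0, sub_add_cancel, Real.rpow_one]
  have e4 : (n : ℝ) ^ θ = (n : ℝ) ^ (θ / 2) * (n : ℝ) ^ (θ / 2) := by
    rw [← Real.rpow_add hn0]
    congr 1
    ring
  have e5 : (n : ℝ) ^ θ < 8 * (M + 1) := by
    have e6 : (m : ℝ) * (n : ℝ) ^ θ ≤ n := by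
      calc (m : ℝ) * (n : ℝ) ^ θ ≤ (n : ℝ) ^ (1 - θ) * (n : ℝ) ^ θ :=
            mul_le_mul_of_nonneg_right hmn (Real.rpow_nonneg hn0.le _)
        _ = n := e3
    have e7 : (m : ℝ) * (n : ℝ) ^ θ < m * (8 * (M + 1)) := by linarith
    exact lt_of_mul_lt_mul_left e7 hm0.le
  obtain ⟨x, hx⟩ : ∃ x, x = (n : ℝ) ^ (θ / 2) := ⟨_, rfl⟩
  rw [e4, ← hx] at e5
  rw [← hx] at hnθ
  have hxM : x ≤ M := by nlinarith
  have hMn : M ≤ n := by
    have h1 : M ≤ 4 * m * M := Nat.le_mul_of_pos_left M (by omega)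
    omega
  have hM16 : (16 : ℝ) ≤ M := by linarith
  have hM1 : 1 ≤ M := by
    have : (1 : ℝ) ≤ M := by linarith
    exact_mod_cast this
  have hMp : (0 : ℝ) < M := by linarith
  have hlogM0 : 0 < Real.log M := Real.log_pos (by linarith)
  have hlog2M : Real.log 2 ≤ η * Real.log M := by
    have h1 : Real.exp (Real.log 2 / η) ≤ M := by linarith
    have h2 := Real.log_le_log hE h1
    rw [Real.log_exp, div_le_iff₀ hη0] at h2
    linarith
  refine ⟨by rw [← hx]; exact hxM, ?_⟩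
  -- the number of the primes
  have hcount := (H3 (2 * M) M M (by rw [← hx]; push_cast; linarith) (by push_cast; linarith)
    (by push_cast; linarith) (by omega)).1
  rw [pr_SP, W_eq, Pool.Agent.Results.MP_4011c3_nt.PrimeQEveryPair.V_eq] at hcount
  have hWy := hW (n - s) m (yl r n) (by omega) hs2 hadm0
  obtain ⟨S, hS⟩ : ∃ S, S = ((SP (Q (s3 (n - s) m)) (yl r n) M).card : ℝ) := ⟨_, rfl⟩
  have hS0 : 0 ≤ S := by rw [hS]; exact Nat.cast_nonneg _
  obtain ⟨W, hWd⟩ : ∃ W, W = Vq (Q (s3 (n - s) m)) (yl r n) / Vz (yl r n) := ⟨_, rfl⟩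
  have hy3 : (3 : ℝ) ≤ (yl r n : ℝ) := by exact_mod_cast (by omega : 3 ≤ yl r n)
  have hlogy : 0 < Real.log (yl r n) := Real.log_pos (by linarith)
  have hW0 : 0 < W := by
    rw [hWd]
    exact lt_of_lt_of_le (by positivity) hWy
  have hcount' : |S * Real.log ((2 * M : ℕ) : ℝ) - M * W| ≤ η * (M * W) := by
    rw [hS, hWd]
    exact hcount
  obtain ⟨L2, hL2⟩ : ∃ L2, L2 = Real.log ((2 * M : ℕ) : ℝ) := ⟨_, rfl⟩
  rw [← hL2] at hcount'
  have hL2e : L2 = Real.log 2 + Real.log M := by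
    rw [hL2]
    push_cast
    rw [Real.log_mul (by norm_num) hMp.ne']
  have hL2' : L2 ≤ (1 + η) * Real.log M := by rw [hL2e]; linarith
  have hlog20 : 0 < Real.log 2 := Real.log_pos (by norm_num)
  have hL20 : 0 < L2 := by rw [hL2e]; linarith
  have hlow : (1 - η) * (M * W) ≤ S * L2 := by
    have := (abs_le.1 hcount').1
    linarith
  rw [← hS]
  refine ⟨?_, ?_⟩
  · have hlogn : 0 < Real.log n := Real.log_pos (by linarith)
    have hyn : (yl r n : ℝ) ≤ n := by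
      refine (yl_le r n).trans ?_
      calc (n : ℝ) ^ (1 / (r : ℝ)) ≤ (n : ℝ) ^ (1 : ℝ) := by
            apply Real.rpow_le_rpow_of_exponent_le hn1
            have : (1 : ℝ) ≤ r := by exact_mod_cast (by omega : 1 ≤ r)
            exact (div_le_one (by linarith)).2 this
        _ = n := Real.rpow_one _
    have hlogyn : Real.log (yl r n) ≤ Real.log n := Real.log_le_log (by linarith) hyn
    have hL2n : L2 ≤ 2 * Real.log n := by
      have h1 : Real.log M ≤ Real.log n := Real.log_le_log hMp (by exact_mod_cast hMn)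
      have h2 : (1 + η) * Real.log M ≤ 2 * Real.log M := mul_le_mul_of_nonneg_right (by linarith) hlogM0.le
      linarith
    have hMm : (n : ℝ) / (16 * m) ≤ M := by
      rw [div_le_iff₀ (by positivity)]
      have : 8 * (m : ℝ) * (M + 1) ≤ 8 * m * (2 * M) := by
        apply mul_le_mul_of_nonneg_left _ (by positivity)
        linarith
      linarith
    have hWn : w / Real.log n ^ 2 ≤ W := by
      rw [hWd]
      refine le_trans ?_ hWy
      apply div_le_div_of_nonneg_left hw.le (by positivity)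
      exact pow_le_pow_left₀ hlogy.le hlogyn 2
    have h1 : (15 / 16) * ((n : ℝ) / (16 * m) * (w / Real.log n ^ 2)) ≤ S * (2 * Real.log n) := by
      have h2 : (n : ℝ) / (16 * m) * (w / Real.log n ^ 2) ≤ M * W :=
        mul_le_mul hMm hWn (by positivity) hMp.le
      have h3 : (15 / 16) * ((n : ℝ) / (16 * m) * (w / Real.log n ^ 2)) ≤ (1 - η) * (M * W) :=
        mul_le_mul (by linarith) h2 (by positivity) (by linarith)
      have h4 : S * L2 ≤ S * (2 * Real.log n) := mul_le_mul_of_nonneg_left hL2n hS0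
      linarith
    have h5 : w / 64 * ((n : ℝ) / (m * Real.log n ^ 3)) * (2 * Real.log n) ≤
        (15 / 16) * ((n : ℝ) / (16 * m) * (w / Real.log n ^ 2)) := by
      have h6 : w / 64 * ((n : ℝ) / (m * Real.log n ^ 3)) * (2 * Real.log n) =
          (1 / 32) * (n * w / (m * Real.log n ^ 2)) := by
        field_simp
        norm_num
      have h7 : (15 / 16) * ((n : ℝ) / (16 * m) * (w / Real.log n ^ 2)) =
          (15 / 256) * (n * w / (m * Real.log n ^ 2)) := by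
        field_simp
        norm_num
      rw [h6, h7]
      apply mul_le_mul_of_nonneg_right (by norm_num) (by positivity)
    exact le_of_mul_le_mul_right (h5.trans h1) (by positivity)
  · -- the bad primes
    have hy2 : 2 < yl r n := by omega
    have hb1 := H1 M (by rw [← hx]; exact hxM) hMn (Q (s3 (n - s) m)) (s3 (n - s) m 1) hperB hbase hadm0
      (fun p k hk => ⟨1, hk⟩)
      (fun p hp hpy => by
        have h1 : rho (quad 1 0 (-2)) p ≤ 2 := by
          have := hB p hp (by omega)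
          rwa [quad_deg 1 0 (-2) one_ne_zero] at this
        rw [rho_s1]
        exact ⟨le_rfl, h1, by omega⟩)
      (fun p hp hpy x h => sep_s1 (n - s) m p hp (by omega) x h)
      (fun q hq1 hq2 => by
        rw [s3_eval1]
        have : (2 : ℤ) ≤ q := by exact_mod_cast (by omega : 2 ≤ q)
        nlinarith)
      (fun q hq1 hq2 => by
        rw [s3_eval1]
        have h1 : ((M ^ 2 : ℕ) : ℝ) ≤ (((q : ℤ) ^ 2 - 2).natAbs : ℝ) := by
          have h2 : M ^ 2 + 2 ≤ q ^ 2 := by nlinarith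
          have h3 : M ^ 2 ≤ ((q : ℤ) ^ 2 - 2).natAbs := by
            zify
            rw [abs_of_nonneg (by
              have : ((M ^ 2 + 2 : ℕ) : ℤ) ≤ ((q ^ 2 : ℕ) : ℤ) := by exact_mod_cast h2
              push_cast at this
              nlinarith)]
            have : ((M ^ 2 + 2 : ℕ) : ℤ) ≤ ((q ^ 2 : ℕ) : ℤ) := by exact_mod_cast h2
            push_cast at this
            linarith
          exact_mod_cast h3
        have h2 := Real.log_le_log (by positivity) h1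
        push_cast at h2
        rw [Real.log_pow] at h2
        push_cast at h2 ⊢
        exact h2)
    have hb2 := H2 M (by rw [← hx]; exact hxM) hMn (Q (s3 (n - s) m)) (s3 (n - s) m 2) hperB hbase hadm0
      (fun p k hk => ⟨2, hk⟩)
      (fun p hp hpy => by
        have h1 := rho_s2 (n - s) m hs2 p hp
        rw [rho_X p hp]
        exact ⟨h1, by omega, by omega⟩)
      (fun p hp hpy x h => sep_s2 (n - s) m hs2 p hp x h)
      (fun q hq1 hq2 => by
        rw [s3_eval2]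
        have h1 : m * q ≤ m * (2 * M) := Nat.mul_le_mul_left m hq2
        have h2 : 2 * (m * q) ≤ n - s := by nlinarith
        have h3 : m * q < n - s := by
          have : 0 < m * q := Nat.mul_pos (by omega) (by omega)
          omega
        have h4 : ((m * q : ℕ) : ℤ) < ((n - s : ℕ) : ℤ) := by exact_mod_cast h3
        push_cast at h4 ⊢
        linarith)
      (fun q hq1 hq2 => by
        rw [s3_eval2]
        have h1 : m * q ≤ m * (2 * M) := Nat.mul_le_mul_left m hq2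
        have h2 : m * q + M ≤ n - s := by
          have h3 : M ≤ m * M := Nat.le_mul_of_pos_left M (by omega)
          nlinarith
        have h3 : (M : ℝ) ≤ ((((n - s : ℕ) : ℤ) - m * q).natAbs : ℝ) := by
          have h4 : M ≤ (((n - s : ℕ) : ℤ) - m * q).natAbs := by
            have h5 : ((m * q + M : ℕ) : ℤ) ≤ ((n - s : ℕ) : ℤ) := by exact_mod_cast h2
            push_cast at h5
            omega
          exact_mod_cast h4
        have h4 := Real.log_le_log hMp h3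
        push_cast at h4 ⊢
        linarith)
    rw [← hWd] at hb1 hb2
    have hmono : ∀ δ' : ℝ, min δ1 δ2 ≤ δ' → ⌊(M : ℝ) ^ (1 / 2 + min δ1 δ2)⌋₊ ≤ ⌊(M : ℝ) ^ (1 / 2 + δ')⌋₊ := by
      intro δ' h
      apply Nat.floor_le_floor
      apply Real.rpow_le_rpow_of_exponent_le (by linarith)
      linarith
    have c1 : ((BP (Q (s3 (n - s) m)) (s3 (n - s) m 1) (yl r n) M ⌊(M : ℝ) ^ (1 / 2 + min δ1 δ2)⌋₊).card : ℝ) ≤
        ((BP (Q (s3 (n - s) m)) (s3 (n - s) m 1) (yl r n) M ⌊(M : ℝ) ^ (1 / 2 + δ1)⌋₊).card : ℝ) := by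
      exact_mod_cast card_le_card (BP_mono _ _ _ _ _ _ (hmono δ1 (min_le_left _ _)))
    have c2 : ((BP (Q (s3 (n - s) m)) (s3 (n - s) m 2) (yl r n) M ⌊(M : ℝ) ^ (1 / 2 + min δ1 δ2)⌋₊).card : ℝ) ≤
        ((BP (Q (s3 (n - s) m)) (s3 (n - s) m 2) (yl r n) M ⌊(M : ℝ) ^ (1 / 2 + δ2)⌋₊).card : ℝ) := by
      exact_mod_cast card_le_card (BP_mono _ _ _ _ _ _ (hmono δ2 (min_le_right _ _)))
    refine (add_le_add c1 c2).trans ?_
    push_cast at hb1 hb2
    rw [one_mul] at hb2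
    exact final_arith S _ _ (M * W) (Real.log M) L2 η κ hlogM0 hη0 hη1 hη2 hS0 hL2' hlow hb1 hb2

end Pool.Agent.H32.PQ
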