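import Pool.Agent.H32.PQ.Asym
import Pool.Graph.R_pool_sql_team_seeded_1acbe0a2.Results.MP_4011c3_nt.PrimeQEveryPair

/-!
# The system `q`, `q ^ 2 - 2`, `N - m q`
-/

set_option autoImplicit false

namespace Pool.Agent.H32.PQ

open Finset Polynomial Filter Topology
open Pool.Agent.H373R2.T7 Pool.Agent.H474R2.PG Pool.Agent.W123.RP Pool.Agent.H32.LP
open Pool.Agent.Y879.GL Pool.Agent.TH464.PO Pool.Agent.TH464.PW
open Pool.Agent.W123.RU.Poly (Q per per1 Sys V_bounds)

lemma Q3_iff (N m p q : ℕ) : Q (s3 N m) p q ↔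
      p ∣ q ∨ (p : ℤ) ∣ (q : ℤ) ^ 2 - 2 ∨ (p : ℤ) ∣ (N : ℤ) - m * q := by
  unfold Q
  constructor
  · rintro ⟨i, hi⟩
    fin_cases i
    · left
      have h : (p : ℤ) ∣ (s3 N m 0).eval (q : ℤ) := hi
      rw [s3_eval0, Int.natCast_dvd_natCast] at h
      exact h
    · right; left
      have h : (p : ℤ) ∣ (s3 N m 1).eval (q : ℤ) := hi
      rw [s3_eval1] at h
      exact h
    · right; right
      have h : (p : ℤ) ∣ (s3 N m 2).eval (q : ℤ) := hi
      rw [s3_eval2] at h
      exact h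
  · rintro (h | h | h)
    · refine ⟨0, ?_⟩
      rw [s3_eval0, Int.natCast_dvd_natCast]
      exact h
    · refine ⟨1, ?_⟩
      rw [s3_eval1]
      exact h
    · refine ⟨2, ?_⟩
      rw [s3_eval2]
      exact h

/-- a fixed system -/
noncomputable def fx : Fin 3 → ℤ[X] := ![X, quad 1 0 (-2), X + C 2]

lemma fx_iff (p q : ℕ) : Q fx p q ↔
      p ∣ q ∨ (p : ℤ) ∣ (q : ℤ) ^ 2 - 2 ∨ (p : ℤ) ∣ (q : ℤ) + 2 := by
  have e0 : ∀ x : ℤ, (fx 0).eval x = x := fun x => by
    change (X : ℤ[X]).eval x = _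
    rw [eval_X]
  have e1 : ∀ x : ℤ, (fx 1).eval x = x ^ 2 - 2 := fun x => by
    change (quad 1 0 (-2)).eval x = _
    rw [quad_eval]
    ring
  have e2 : ∀ x : ℤ, (fx 2).eval x = x + 2 := fun x => by
    change (X + C 2 : ℤ[X]).eval x = _
    rw [eval_add, eval_X, eval_C]
  unfold Q
  constructor
  · rintro ⟨i, hi⟩
    fin_cases i
    · left
      have h : (p : ℤ) ∣ (fx 0).eval (q : ℤ) := hi
      rw [e0, Int.natCast_dvd_natCast] at h
      exact h
    · right; left
      have h : (p : ℤ) ∣ (fx 1).eval (q : ℤ) := hi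
      rw [e1] at h
      exact h
    · right; right
      have h : (p : ℤ) ∣ (fx 2).eval (q : ℤ) := hi
      rw [e2] at h
      exact h
  · rintro (h | h | h)
    · refine ⟨0, ?_⟩
      rw [e0, Int.natCast_dvd_natCast]
      exact h
    · refine ⟨1, ?_⟩
      rw [e1]
      exact h
    · refine ⟨2, ?_⟩
      rw [e2]
      exact h

lemma irr2 : Irreducible (quad 1 0 (-2)) := by
  apply quad_irr _ _ _ one_ne_zero
  · rintro p hp ⟨h1, _, _⟩
    exact (Nat.prime_iff_prime_int.1 hp).not_isUnit (isUnit_of_dvd_one h1)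
  · rintro ⟨s, hs⟩
    have h1 : s * s = 8 := by linarith
    have h2 : s < 3 := by nlinarith
    have h3 : -3 < s := by nlinarith
    interval_cases s <;> omega

lemma fx_sys : Sys fx where
  irr i := by
    fin_cases i
    · exact irreducible_X
    · exact irr2
    · change Irreducible (X + C 2 : ℤ[X])
      have h := Polynomial.irreducible_X_sub_C (-2 : ℤ)
      rwa [C_neg, sub_neg_eq_add] at h
  deg i := by
    fin_cases i
    · change 0 < (X : ℤ[X]).natDegree
      rw [natDegree_X]; norm_num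
    · change 0 < (quad 1 0 (-2)).natDegree
      rw [quad_deg 1 0 (-2) one_ne_zero]; norm_num
    · change 0 < (X + C 2 : ℤ[X]).natDegree
      rw [natDegree_X_add_C]; norm_num
  lead i := by
    fin_cases i
    · change 0 < (X : ℤ[X]).leadingCoeff
      rw [leadingCoeff_X]; norm_num
    · change 0 < (quad 1 0 (-2)).leadingCoeff
      rw [quad_lead 1 0 (-2) one_ne_zero]; norm_num
    · change 0 < (X + C 2 : ℤ[X]).leadingCoeff
      rw [leadingCoeff_X_add_C]; norm_num
  inj := by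
    intro i i' h
    have h2 := congrArg (fun q : ℤ[X] => q.eval 0) h
    fin_cases i <;> fin_cases i' <;> simp [fx, quad_eval] at h2 ⊢
  adm p hp := by
    have key : ∃ m : ℕ, ¬ Q fx p m := by
      by_cases hp2 : p = 2
      · subst hp2
        refine ⟨1, ?_⟩
        rw [fx_iff]
        decide
      · by_cases hp3 : p = 3
        · subst hp3
          refine ⟨2, ?_⟩
          rw [fx_iff]
          decide
        · refine ⟨1, ?_⟩
          rw [fx_iff]
          have h5 := hp.two_le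
          rintro (h | h | h)
          · exact hp.one_lt.ne' (Nat.dvd_one.1 h)
          · have h1 : (p : ℤ) ∣ 1 := by
              have := (dvd_neg (a := (p : ℤ))).2 h
              push_cast at this
              norm_num at this
              exact this
            have h2 : p ∣ 1 := by exact_mod_cast h1
            exact hp.one_lt.ne' (Nat.dvd_one.1 h2)
          · have h1 : p ∣ 3 := by
              have h2 : (p : ℤ) ∣ 3 := by
                push_cast at h
                norm_num at h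
                exact h
              exact_mod_cast h2
            exact hp3 ((Nat.prime_dvd_prime_iff_eq hp Nat.prime_three).1 h1)
    obtain ⟨m, hm⟩ := key
    exact ⟨m, fun i h => hm ⟨i, h⟩⟩

lemma one_root (N m p : ℕ) (hp : p.Prime) (hcop : Nat.Coprime m N) :
    ((range p).filter (fun q : ℕ => (p : ℤ) ∣ (N : ℤ) - m * q)).card ≤ 1 := by
  rw [card_le_one]
  intro a ha b hb
  rw [mem_filter, mem_range] at ha hb
  have h1 : (p : ℤ) ∣ (m : ℤ) * ((a : ℤ) - b) := by
    have := dvd_sub hb.2 ha.2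
    have e : (N : ℤ) - m * b - ((N : ℤ) - m * a) = m * ((a : ℤ) - b) := by ring
    rwa [e] at this
  have hpp := Nat.prime_iff_prime_int.1 hp
  have h2 : ¬ (p : ℤ) ∣ m := by
    intro h2
    have h3 : (p : ℤ) ∣ N := by
      have := dvd_add ha.2 (h2.mul_right (a : ℤ))
      rwa [sub_add_cancel] at this
    have h4 : p ∣ Nat.gcd m N := Nat.dvd_gcd (by exact_mod_cast h2) (by exact_mod_cast h3)
    rw [hcop] at h4
    exact hp.one_lt.ne' (Nat.dvd_one.1 h4)
  have h3 := (hpp.dvd_or_dvd h1).resolve_left h2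
  have h4 : ((a : ℤ) - b).natAbs < p := by omega
  have h5 : (a : ℤ) - b = 0 := Int.eq_zero_of_dvd_of_natAbs_lt_natAbs h3 (by simpa using h4)
  omega

lemma nuB_le (N m p : ℕ) (hp : p.Prime) (hp2 : p ≠ 2) (hcop : Nat.Coprime m N) :
    nuB (Q (s3 N m)) p ≤ nuB (Q fx) p := by
  classical
  have h1 : nuB (Q (s3 N m)) p = ((range p).filter (fun r => Q (s3 N m) p r)).card := by
    unfold nuB
    convert rfl
  have h2 : nuB (Q fx) p = ((range p).filter (fun r => Q fx p r)).card := by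
    unfold nuB
    convert rfl
  set A := (range p).filter (fun q : ℕ => p ∣ q ∨ (p : ℤ) ∣ (q : ℤ) ^ 2 - 2) with hA
  have hp3 : 3 ≤ p := by
    have := hp.two_le
    omega
  have h3 : ((range p).filter (fun r => Q (s3 N m) p r)) ⊆
      A ∪ (range p).filter (fun q : ℕ => (p : ℤ) ∣ (N : ℤ) - m * q) := by
    intro q hq
    rw [mem_filter, Q3_iff] at hq
    rw [mem_union, hA, mem_filter, mem_filter]
    tauto
  have h4 : insert (p - 2) A ⊆ (range p).filter (fun r => Q fx p r) := by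
    intro q hq
    rw [mem_filter, fx_iff]
    rw [mem_insert, hA, mem_filter] at hq
    rcases hq with hq | hq
    · rw [hq]
      refine ⟨mem_range.2 (by omega), Or.inr (Or.inr ?_)⟩
      have : ((p - 2 : ℕ) : ℤ) + 2 = p := by
        rw [Nat.cast_sub (by omega)]
        push_cast
        ring
      rw [this]
    · tauto
  have h5 : p - 2 ∉ A := by
    rw [hA, mem_filter]
    rintro ⟨_, h6 | h6⟩
    · have := Nat.le_of_dvd (by omega) h6
      omega
    · have e : ((p - 2 : ℕ) : ℤ) ^ 2 - 2 = p * (p - 4) + 2 := by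
        rw [Nat.cast_sub (by omega)]
        push_cast
        ring
      rw [e] at h6
      have h7 : (p : ℤ) ∣ 2 := (dvd_add_right (dvd_mul_right _ _)).1 h6
      have h8 : p ∣ 2 := by exact_mod_cast h7
      have := Nat.le_of_dvd (by norm_num) h8
      omega
  have h6 := card_le_card h4
  rw [card_insert_of_notMem h5] at h6
  have h7 := (card_le_card h3).trans (card_union_le _ _)
  have h8 := one_root N m p hp hcop
  rw [h1, h2]
  omega

/-- the lower bound of the right order -/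
lemma W_low : ∃ w : ℝ, 0 < w ∧ ∀ N m y : ℕ, 3 ≤ y → Nat.Coprime m N →
    (∀ p : ℕ, p.Prime → nuB (Q (s3 N m)) p < p) →
    w / Real.log y ^ 2 ≤ Vq (Q (s3 N m)) y / Vz y := by
  obtain ⟨v, Cv, hv, -, hV⟩ := V_bounds fx fx_sys
  obtain ⟨c, C, hc, hC, hVz⟩ := Vz_bounds
  refine ⟨v / 2 / C, by positivity, fun N m y hy hcop hadm => ?_⟩
  have h1 := (hV y hy).1
  have h2 := (hVz y (by omega)).2
  have hV0 := Pool.Agent.Y879.PR.Vz_pos y
  have hlog : 0 < Real.log y := Real.log_pos (by exact_mod_cast (by omega : 1 < y))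
  rw [Fintype.card_fin] at h1
  have h3 : 1 / 2 * Vq (Q fx) y ≤ Vq (Q (s3 N m)) y := by
    unfold Vq
    have h2y : 2 ∈ pz y := mem_pz.2 ⟨by omega, Nat.prime_two⟩
    rw [← mul_prod_erase _ _ h2y, ← mul_prod_erase _ _ h2y]
    have k1 : ∏ p ∈ (pz y).erase 2, (1 - (nuB (Q fx) p : ℝ) / p) ≤
        ∏ p ∈ (pz y).erase 2, (1 - (nuB (Q (s3 N m)) p : ℝ) / p) := by
      apply Finset.prod_le_prod
      · intro p hp
        exact one_sub_nonneg _ p (mem_pz.1 (mem_of_mem_erase hp)).2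
      · intro p hp
        have hpp := (mem_pz.1 (mem_of_mem_erase hp)).2
        have h4 : (nuB (Q (s3 N m)) p : ℝ) ≤ nuB (Q fx) p := by
          exact_mod_cast nuB_le N m p hpp (ne_of_mem_erase hp) hcop
        have h5 : (0 : ℝ) < p := by exact_mod_cast hpp.pos
        have h6 : (nuB (Q (s3 N m)) p : ℝ) / p ≤ (nuB (Q fx) p : ℝ) / p :=
          div_le_div_of_nonneg_right h4 h5.le
        linarith
    have k0 : 0 ≤ ∏ p ∈ (pz y).erase 2, (1 - (nuB (Q fx) p : ℝ) / p) :=
      prod_nonneg fun p hp => one_sub_nonneg _ p (mem_pz.1 (mem_of_mem_erase hp)).2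
    have k2 : (1 / 2 : ℝ) ≤ 1 - (nuB (Q (s3 N m)) 2 : ℝ) / (2 : ℕ) := by
      have h4 := hadm 2 Nat.prime_two
      have h5 : (nuB (Q (s3 N m)) 2 : ℝ) ≤ 1 := by exact_mod_cast (by omega : nuB (Q (s3 N m)) 2 ≤ 1)
      push_cast
      linarith
    have k3 : 1 - (nuB (Q fx) 2 : ℝ) / (2 : ℕ) ≤ 1 := by
      have : (0 : ℝ) ≤ (nuB (Q fx) 2 : ℝ) / (2 : ℕ) := by positivity
      linarith
    obtain ⟨A, hA⟩ : ∃ A, A = ∏ p ∈ (pz y).erase 2, (1 - (nuB (Q fx) p : ℝ) / p) := ⟨_, rfl⟩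
    obtain ⟨B, hB⟩ : ∃ B, B = ∏ p ∈ (pz y).erase 2, (1 - (nuB (Q (s3 N m)) p : ℝ) / p) := ⟨_, rfl⟩
    obtain ⟨a, ha⟩ : ∃ a, a = 1 - (nuB (Q fx) 2 : ℝ) / (2 : ℕ) := ⟨_, rfl⟩
    obtain ⟨b, hb⟩ : ∃ b, b = 1 - (nuB (Q (s3 N m)) 2 : ℝ) / (2 : ℕ) := ⟨_, rfl⟩
    rw [← hA, ← hB] at k1
    rw [← hA] at k0
    rw [← hb] at k2
    rw [← ha] at k3
    rw [← hA, ← hB, ← ha, ← hb]
    have k4 : a * A ≤ 1 * A := mul_le_mul_of_nonneg_right k3 k0
    have k5 : 1 / 2 * A ≤ b * B := mul_le_mul k2 k1 k0 (by linarith)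
    linarith
  rw [le_div_iff₀ hV0]
  obtain ⟨l, hl⟩ : ∃ l, l = Real.log (y : ℝ) := ⟨_, rfl⟩
  rw [← hl] at h1 h2 hlog ⊢
  have h4 : v / 2 / C / l ^ 2 * Vz y ≤ v / 2 / C / l ^ 2 * (C / l) :=
    mul_le_mul_of_nonneg_left h2 (by positivity)
  have h5 : v / 2 / C / l ^ 2 * (C / l) = 1 / 2 * (v / l ^ 3) := by field_simp
  rw [h5] at h4
  linarith

end Pool.Agent.H32.PQ
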